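import Pool.Agent.HSF98.X80.Dat7

set_option autoImplicit false

/-! Colourings of the triples of seven points all of whose classes are 2-designs. -/

namespace Pool.Agent.HSF98.X80

open Finset

theorem count_eq {n : ℕ} (X : Finset (Finset (Fin n))) (tm : List ℕ) (hnd : tm.Nodup)
    (hlt : ∀ s ∈ tm, s < 2 ^ n) (hX : ∀ A ∈ X, ∃ s ∈ tm, S n s = A)
    (P : Finset (Fin n) → Prop) [DecidablePred P] (g : ℕ → Bool)
    (hg : ∀ s ∈ tm, (g s = true ↔ P (S n s))) :
    (X.filter P).card = (tm.filter g).countP (fun s => decide (S n s ∈ X)) := by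
  classical
  rw [List.countP_eq_length_filter]
  have hnd2 : ((tm.filter g).filter (fun s => decide (S n s ∈ X))).Nodup :=
    (hnd.filter _).filter _
  rw [← List.toFinset_card_of_nodup hnd2]
  symm
  refine Finset.card_bij (fun s _ => S n s) ?_ ?_ ?_
  · intro s hs
    rw [List.mem_toFinset, List.mem_filter, List.mem_filter] at hs
    rw [mem_filter]
    exact ⟨of_decide_eq_true hs.2, (hg s hs.1.1).mp hs.1.2⟩
  · intro s hs t ht h
    rw [List.mem_toFinset, List.mem_filter, List.mem_filter] at hs ht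
    exact S_inj (hlt s hs.1.1) (hlt t ht.1.1) h
  · intro A hA
    rw [mem_filter] at hA
    obtain ⟨s, hs, rfl⟩ := hX A hA.1
    refine ⟨s, ?_, rfl⟩
    rw [List.mem_toFinset, List.mem_filter, List.mem_filter]
    exact ⟨⟨hs, (hg s hs).mpr hA.2⟩, decide_eq_true hA.1⟩

theorem tm7_nodup : tm7.Nodup := by decide +kernel

theorem tm7_lt : ∀ s ∈ tm7, s < 2 ^ 7 := by decide +kernel

theorem tm7_card : ∀ s ∈ tm7, (S 7 s).card = 3 := by decide +kernel

theorem tm7_all : ∀ s < 128, (S 7 s).card = 3 → s ∈ tm7 := by decide +kernel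

theorem sched7_checks : ∀ x ∈ sched7, ∀ L ∈ x.2, ∃ a b : Fin 7, a ≠ b ∧
    L = tm7.filter (fun s => s.testBit a.val && s.testBit b.val) := by decide +kernel

theorem mem_tm7 {A : Finset (Fin 7)} (hA : A.card = 3) : code A ∈ tm7 := by
  apply tm7_all _ (by have := code_lt A; omega)
  rw [S_code]; exact hA

/-- `X` is a family of triples of seven points with every pair in `lam` members. -/
structure Des (lam : ℕ) (X : Finset (Finset (Fin 7))) : Prop where
  three : ∀ A ∈ X, A.card = 3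
  pair : ∀ x y : Fin 7, x ≠ y → (X.filter (fun A => x ∈ A ∧ y ∈ A)).card = lam

theorem Des.exists_sol {lam : ℕ} {X : Finset (Finset (Fin 7))} (h : Des lam X) :
    ∃ M ∈ dfs lam sched7 0, ∀ A : Finset (Fin 7), A.card = 3 →
      (M.testBit (code A) = true ↔ A ∈ X) := by
  classical
  have hX : ∀ A ∈ X, ∃ s ∈ tm7, S 7 s = A := fun A hA =>
    ⟨code A, mem_tm7 (h.three A hA), S_code A⟩
  have hc : ∀ x ∈ sched7, ∀ L ∈ x.2, L.countP (fun s => decide (S 7 s ∈ X)) = lam := by
    intro x hx L hL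
    obtain ⟨a, b, hab, rfl⟩ := sched7_checks x hx L hL
    rw [← h.pair a b hab]
    symm
    refine count_eq X tm7 tm7_nodup tm7_lt hX _ _ ?_
    intro s _
    rw [Bool.and_eq_true, mem_S, mem_S]
  obtain ⟨M, hM, hM2⟩ := dfs_sound lam (fun s => decide (S 7 s ∈ X)) sched7 [] 0 wf7
    (by intro s; simp) hc
  refine ⟨M, hM, fun A hA => ?_⟩
  rw [hM2, sched7_fst, Bool.and_eq_true, S_code, decide_eq_true_eq, decide_eq_true_eq]
  constructor
  · exact fun h1 => h1.2
  · exact fun h1 => ⟨Or.inr (mem_tm7 hA), h1⟩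

theorem good_spec {F : ℕ} {x : ℕ × List ℕ} (h : good F x = true) :
    valid 7 x.2 = true ∧ ∀ A : Finset (Fin 7), A.card = 3 →
      x.1.testBit (img x.2 7 (code A)) = F.testBit (code A) := by
  simp only [good, Bool.and_eq_true, List.all_eq_true, beq_iff_eq] at h
  exact ⟨h.1, fun A hA => h.2 _ (mem_tm7 hA)⟩

theorem card_map7 {A : Finset (Fin 7)} (σ : Equiv.Perm (Fin 7)) (hA : A.card = 3) :
    (A.map σ.toEmbedding).card = 3 := by rw [card_map]; exact hA

theorem Des.one {X : Finset (Finset (Fin 7))} (h : Des 1 X) :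
    ∃ M ∈ tab1.map Prod.fst, ∀ A : Finset (Fin 7), A.card = 3 →
      (M.testBit (code A) = true ↔ A ∈ X) := by
  have h1 := h.exists_sol
  rwa [sols1] at h1

theorem Des.two {X : Finset (Finset (Fin 7))} (h : Des 2 X) :
    ∃ M ∈ tab2.map Prod.fst, ∀ A : Finset (Fin 7), A.card = 3 →
      (M.testBit (code A) = true ↔ A ∈ X) := by
  have h1 := h.exists_sol
  rwa [sols2] at h1

theorem Des.iso1 {X : Finset (Finset (Fin 7))} (h : Des 1 X) :
    ∃ σ : Equiv.Perm (Fin 7), ∀ A : Finset (Fin 7), A.card = 3 →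
      (A.map σ.toEmbedding ∈ X ↔ F1m.testBit (code A) = true) := by
  obtain ⟨M, hM, hM2⟩ := h.one
  rw [List.mem_map] at hM
  obtain ⟨x, hx, rfl⟩ := hM
  have hg := List.all_eq_true.mp good1 x hx
  obtain ⟨hv, hg2⟩ := good_spec hg
  obtain ⟨σ, hσ⟩ := exists_perm hv
  refine ⟨σ, fun A hA => ?_⟩
  rw [← hM2 _ (card_map7 σ hA), code_map hv hσ, hg2 A hA]

theorem Des.iso2 {X : Finset (Finset (Fin 7))} (h : Des 2 X) :
    ∃ σ : Equiv.Perm (Fin 7), ∀ A : Finset (Fin 7), A.card = 3 →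
      (A.map σ.toEmbedding ∈ X ↔ (F1m ||| F2m).testBit (code A) = true) := by
  obtain ⟨M, hM, hM2⟩ := h.two
  rw [List.mem_map] at hM
  obtain ⟨x, hx, rfl⟩ := hM
  have hg := List.all_eq_true.mp good2 x hx
  obtain ⟨hv, hg2⟩ := good_spec hg
  obtain ⟨σ, hσ⟩ := exists_perm hv
  refine ⟨σ, fun A hA => ?_⟩
  rw [← hM2 _ (card_map7 σ hA), code_map hv hσ, hg2 A hA]

/-- A code for triples in the table. -/
def supp7 (M : ℕ) : Prop := ∀ s, M.testBit s = true → s ∈ tm7

theorem supp1 : ∀ M ∈ tab1.map Prod.fst, supp7 M := by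
  have h0 : (tab1.map Prod.fst).all (fun M => decide (M < 2 ^ 128) &&
      (List.range 128).all (fun s => (!(M.testBit s)) || tm7.contains s)) = true := by
    decide +kernel
  intro M hM s hs
  rw [List.all_eq_true] at h0
  have h1 := h0 M hM
  simp only [Bool.and_eq_true, List.all_eq_true, List.mem_range, Bool.or_eq_true,
    Bool.not_eq_true', decide_eq_true_eq] at h1
  have h2 : s < 128 := by
    by_contra hc
    have h3 : M < 2 ^ s := lt_of_lt_of_le h1.1 (Nat.pow_le_pow_right (by norm_num) (by omega))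
    rw [Nat.testBit_lt_two_pow h3] at hs
    simp at hs
  rcases h1.2 s h2 with h3 | h3
  · rw [h3] at hs; simp at hs
  · simpa using h3

theorem disj_land {X Y : Finset (Finset (Fin 7))} {M N : ℕ} (hXY : Disjoint X Y)
    (hM : supp7 M)
    (h1 : ∀ A : Finset (Fin 7), A.card = 3 → (M.testBit (code A) = true ↔ A ∈ X))
    (h2 : ∀ A : Finset (Fin 7), A.card = 3 → (N.testBit (code A) = true ↔ A ∈ Y)) :
    M &&& N = 0 := by
  apply Nat.eq_of_testBit_eq
  intro s
  rw [Nat.zero_testBit, Nat.testBit_and]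
  by_contra hc
  have h3 : M.testBit s = true ∧ N.testBit s = true := by simpa using hc
  have h4 := hM s h3.1
  have h5 := tm7_card s h4
  have h6 := tm7_lt s h4
  have h7 : code (S 7 s) = s := code_S h6
  have h8 := (h1 (S 7 s) h5).mp (by rw [h7]; exact h3.1)
  have h9 := (h2 (S 7 s) h5).mp (by rw [h7]; exact h3.2)
  exact (Finset.disjoint_left.mp hXY h8 h9)

theorem Des.iso3 {X Y : Finset (Finset (Fin 7))} (hX : Des 1 X) (hY : Des 1 Y)
    (hXY : Disjoint X Y) :
    ∃ σ : Equiv.Perm (Fin 7), ∀ A : Finset (Fin 7), A.card = 3 →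
      (A.map σ.toEmbedding ∈ X ↔ F1m.testBit (code A) = true) ∧
      (A.map σ.toEmbedding ∈ Y ↔ F2m.testBit (code A) = true) := by
  obtain ⟨M, hM, hM2⟩ := hX.one
  obtain ⟨N, hN, hN2⟩ := hY.one
  have h0 := disj_land hXY (supp1 M hM) hM2 hN2
  have h1 : (M, N) ∈ tab3.map Prod.fst := by
    rw [← pairs3, List.mem_flatMap]
    refine ⟨M, hM, ?_⟩
    rw [List.mem_map]
    refine ⟨N, ?_, rfl⟩
    rw [List.mem_filter]
    exact ⟨hN, by rw [beq_iff_eq]; exact h0⟩
  rw [List.mem_map] at h1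
  obtain ⟨x, hx, hx2⟩ := h1
  have hg := List.all_eq_true.mp good3 x hx
  rw [hx2] at hg
  simp only [Bool.and_eq_true] at hg
  obtain ⟨hv, hg1⟩ := good_spec hg.1
  obtain ⟨-, hg2⟩ := good_spec hg.2
  obtain ⟨σ, hσ⟩ := exists_perm hv
  refine ⟨σ, fun A hA => ⟨?_, ?_⟩⟩
  · rw [← hM2 _ (card_map7 σ hA), code_map hv hσ]
    have := hg1 A hA
    simp only at this
    rw [this]
  · rw [← hN2 _ (card_map7 σ hA), code_map hv hσ]
    have := hg2 A hA
    simp only at this
    rw [this]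

theorem Des.no3 {X Y Z : Finset (Finset (Fin 7))} (hX : Des 1 X) (hY : Des 1 Y)
    (hZ : Des 1 Z) (hXY : Disjoint X Y) (hXZ : Disjoint X Z) (hYZ : Disjoint Y Z) : False := by
  obtain ⟨M, hM, hM2⟩ := hX.one
  obtain ⟨N, hN, hN2⟩ := hY.one
  obtain ⟨L, hL, hL2⟩ := hZ.one
  have h1 := disj_land hXY (supp1 M hM) hM2 hN2
  have h2 := disj_land hXZ (supp1 M hM) hM2 hL2
  have h3 := disj_land hYZ (supp1 N hN) hN2 hL2
  have h4 := List.all_eq_true.mp (List.all_eq_true.mp notri M hM) N hN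
  rw [h1] at h4
  simp only [beq_self_eq_true, Bool.not_true, Bool.false_or] at h4
  have h5 := List.all_eq_true.mp h4 L hL
  rw [h2, h3] at h5
  simp at h5

theorem Des.no2 {X Y : Finset (Finset (Fin 7))} (hX : Des 1 X) (hY : Des 2 Y)
    (hXY : Disjoint X Y) : False := by
  obtain ⟨M, hM, hM2⟩ := hX.one
  obtain ⟨N, hN, hN2⟩ := hY.two
  have h1 := disj_land hXY (supp1 M hM) hM2 hN2
  have h4 := List.all_eq_true.mp (List.all_eq_true.mp notwo M hM) N hN
  rw [h1] at h4
  simp at h4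

end Pool.Agent.HSF98.X80
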