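import Pool.Agent.HSF98.X80.Cls7

set_option autoImplicit false

/-! Colourings of the triples of seven points all of whose classes are 2-designs. -/

namespace Pool.Agent.HSF98.X80

open Finset

/-- The four standard colourings of the triples of seven points. -/
def std : ℕ → ℕ → ℕ
  | 0, _ => 0
  | 1, s => if F1m.testBit s = true then 1 else 0
  | 2, s => if (F1m ||| F2m).testBit s = true then 1 else 0
  | _, s => if F1m.testBit s = true then 1 else if F2m.testBit s = true then 2 else 0

section

variable {C : Type} [DecidableEq C] (c : Finset (Fin 7) → C)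

/-- A colour class of triples. -/
def cl (p : C) : Finset (Finset (Fin 7)) := univ.filter (fun A => A.card = 3 ∧ c A = p)

theorem mem_cl {p : C} {A : Finset (Fin 7)} : A ∈ cl c p ↔ A.card = 3 ∧ c A = p := by
  simp [cl]

/-- The number of triples of a colour on a pair. -/
def lam (p : C) : ℕ := ((cl c p).filter (fun A => (0 : Fin 7) ∈ A ∧ (1 : Fin 7) ∈ A)).card

theorem five : ((univ : Finset (Finset (Fin 7))).filter
    (fun A => A.card = 3 ∧ (0 : Fin 7) ∈ A ∧ (1 : Fin 7) ∈ A)).card = 5 := by decide +kernel

theorem sum_lam (P : Finset C) : ∑ p ∈ P, lam c p ≤ 5 := by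
  classical
  have h1 : ∑ p ∈ P, lam c p = (P.biUnion (fun p =>
      (cl c p).filter (fun A => (0 : Fin 7) ∈ A ∧ (1 : Fin 7) ∈ A))).card := by
    rw [card_biUnion]
    · rfl
    · intro p _ q _ hpq
      rw [Function.onFun, Finset.disjoint_left]
      intro A hA hA'
      rw [mem_filter, mem_cl] at hA hA'
      exact hpq (hA.1.2.symm.trans hA'.1.2)
  rw [h1, ← five]
  apply card_le_card
  intro A hA
  rw [mem_biUnion] at hA
  obtain ⟨p, _, hA⟩ := hA
  rw [mem_filter, mem_cl] at hA
  simp [hA.1.1, hA.2]

variable (h : ∀ (p : C) (x y x' y' : Fin 7), x ≠ y → x' ≠ y' →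
  ((cl c p).filter (fun A => x ∈ A ∧ y ∈ A)).card =
  ((cl c p).filter (fun A => x' ∈ A ∧ y' ∈ A)).card)

include h

theorem des_cl (p : C) : Des (lam c p) (cl c p) :=
  ⟨fun A hA => ((mem_cl c).mp hA).1, fun x y hxy => h p x y 0 1 hxy (by decide)⟩

theorem lam_pos {A : Finset (Fin 7)} (hA : A.card = 3) : 1 ≤ lam c (c A) := by
  obtain ⟨x, hx, y, hy, hxy⟩ := Finset.one_lt_card.mp (show 1 < A.card by omega)
  rw [← (des_cl c h (c A)).pair x y hxy, Nat.one_le_iff_ne_zero, Finset.card_ne_zero]
  exact ⟨A, by rw [mem_filter, mem_cl]; exact ⟨⟨hA, rfl⟩, hx, hy⟩⟩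

omit h in
theorem disj_cl {p q : C} (hpq : p ≠ q) : Disjoint (cl c p) (cl c q) := by
  rw [Finset.disjoint_left]
  intro A hA hA'
  rw [mem_cl] at hA hA'
  exact hpq (hA.2.symm.trans hA'.2)

theorem cls7 : ∃ (τ : ℕ) (σ : Equiv.Perm (Fin 7)), τ < 4 ∧ ∀ A A' : Finset (Fin 7),
    A.card = 3 → A'.card = 3 →
    (c (A.map σ.toEmbedding) = c (A'.map σ.toEmbedding) ↔
      std τ (code A) = std τ (code A')) := by
  classical
  by_cases h0 : ∀ A A' : Finset (Fin 7), A.card = 3 → A'.card = 3 → c A = c A'
  · refine ⟨0, 1, by norm_num, fun A A' hA hA' => ?_⟩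
    simp only [std, iff_true]
    exact h0 _ _ (card_map7 1 hA) (card_map7 1 hA')
  by_cases h1 : ∃ p, lam c p = 1
  · obtain ⟨p, hp⟩ := h1
    have dp : Des 1 (cl c p) := by rw [← hp]; exact des_cl c h p
    by_cases h2 : ∀ A A' : Finset (Fin 7), A.card = 3 → A'.card = 3 → c A ≠ p → c A' ≠ p →
        c A = c A'
    · obtain ⟨σ, hσ⟩ := dp.iso1
      refine ⟨1, σ, by norm_num, fun A A' hA hA' => ?_⟩
      have hA1 := hσ A hA
      have hA2 := hσ A' hA'
      have cA := card_map7 σ hA
      have cA' := card_map7 σ hA'
      rw [mem_cl] at hA1 hA2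
      simp only [cA, cA', true_and] at hA1 hA2
      simp only [std]
      by_cases e1 : F1m.testBit (code A) = true
      · by_cases e2 : F1m.testBit (code A') = true
        · simp [e1, e2, hA1.mpr e1, hA2.mpr e2]
        · rw [if_pos e1, if_neg e2, hA1.mpr e1]
          constructor
          · intro hh; exact absurd (hA2.mp hh.symm) e2
          · intro hh; exact absurd hh (by norm_num)
      · by_cases e2 : F1m.testBit (code A') = true
        · rw [if_neg e1, if_pos e2, hA2.mpr e2]
          constructor
          · intro hh; exact absurd (hA1.mp hh) e1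
          · intro hh; exact absurd hh (by norm_num)
        · rw [if_neg e1, if_neg e2]
          simp only [iff_true]
          exact h2 _ _ cA cA' (fun hh => e1 (hA1.mp hh)) (fun hh => e2 (hA2.mp hh))
    · push Not at h2
      obtain ⟨B, B', hB, hB', hBp, hBp', hBB⟩ := h2
      have hs := sum_lam c {p, c B, c B'}
      rw [sum_insert (by simp [hBp.symm, hBp'.symm]), sum_pair hBB, hp] at hs
      have hl := lam_pos c h hB
      have hl' := lam_pos c h hB'
      have h3 : ∃ q, q ≠ p ∧ (lam c q = 1 ∨ lam c q = 2) := by
        by_cases h4 : lam c (c B) ≤ 2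
        · exact ⟨c B, hBp, by omega⟩
        · exact ⟨c B', hBp', by omega⟩
      obtain ⟨q, hqp, hq | hq⟩ := h3
      · have dq : Des 1 (cl c q) := by rw [← hq]; exact des_cl c h q
        by_cases h5 : ∀ A A' : Finset (Fin 7), A.card = 3 → A'.card = 3 → c A ≠ p →
            c A ≠ q → c A' ≠ p → c A' ≠ q → c A = c A'
        · obtain ⟨σ, hσ⟩ := Des.iso3 dp dq (disj_cl c hqp.symm)
          refine ⟨3, σ, by norm_num, fun A A' hA hA' => ?_⟩
          obtain ⟨hA1, hA3⟩ := hσ A hA
          obtain ⟨hA2, hA4⟩ := hσ A' hA'
          have cA := card_map7 σ hA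
          have cA' := card_map7 σ hA'
          rw [mem_cl] at hA1 hA2 hA3 hA4
          simp only [cA, cA', true_and] at hA1 hA2 hA3 hA4
          simp only [std]
          by_cases e1 : F1m.testBit (code A) = true
          · rw [if_pos e1, hA1.mpr e1]
            by_cases e2 : F1m.testBit (code A') = true
            · rw [if_pos e2, hA2.mpr e2]; simp
            · rw [if_neg e2]
              constructor
              · intro hh; exact absurd (hA2.mp hh.symm) e2
              · intro hh
                exfalso
                by_cases e4 : F2m.testBit (code A') = true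
                · rw [if_pos e4] at hh; omega
                · rw [if_neg e4] at hh; omega
          · rw [if_neg e1]
            by_cases e2 : F1m.testBit (code A') = true
            · rw [if_pos e2, hA2.mpr e2]
              constructor
              · intro hh; exact absurd (hA1.mp hh) e1
              · intro hh
                exfalso
                by_cases e3 : F2m.testBit (code A) = true
                · rw [if_pos e3] at hh; omega
                · rw [if_neg e3] at hh; omega
            · rw [if_neg e2]
              by_cases e3 : F2m.testBit (code A) = true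
              · rw [if_pos e3, hA3.mpr e3]
                by_cases e4 : F2m.testBit (code A') = true
                · rw [if_pos e4, hA4.mpr e4]; simp
                · rw [if_neg e4]
                  constructor
                  · intro hh; exact absurd (hA4.mp hh.symm) e4
                  · intro hh; exact absurd hh (by norm_num)
              · rw [if_neg e3]
                by_cases e4 : F2m.testBit (code A') = true
                · rw [if_pos e4, hA4.mpr e4]
                  constructor
                  · intro hh; exact absurd (hA3.mp hh) e3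
                  · intro hh; exact absurd hh (by norm_num)
                · rw [if_neg e4]
                  simp only [iff_true]
                  exact h5 _ _ cA cA' (fun hh => e1 (hA1.mp hh)) (fun hh => e3 (hA3.mp hh))
                    (fun hh => e2 (hA2.mp hh)) (fun hh => e4 (hA4.mp hh))
        · push Not at h5
          obtain ⟨D, D', hD, hD', hDp, hDq, hDp', hDq', hDD⟩ := h5
          have hs2 := sum_lam c {p, q, c D, c D'}
          rw [sum_insert (by simp [hqp.symm, hDp.symm, hDp'.symm]),
            sum_insert (by simp [hDq.symm, hDq'.symm]), sum_pair hDD, hp, hq] at hs2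
          have hm := lam_pos c h hD
          have hm' := lam_pos c h hD'
          have h6 : ∃ r, r ≠ p ∧ r ≠ q ∧ lam c r = 1 := by
            by_cases h7 : lam c (c D) ≤ 1
            · exact ⟨c D, hDp, hDq, by omega⟩
            · exact ⟨c D', hDp', hDq', by omega⟩
          obtain ⟨r, hrp, hrq, hr⟩ := h6
          have dr : Des 1 (cl c r) := by rw [← hr]; exact des_cl c h r
          exact (Des.no3 dp dq dr (disj_cl c hqp.symm) (disj_cl c hrp.symm)
            (disj_cl c hrq.symm)).elim
      · have dq : Des 2 (cl c q) := by rw [← hq]; exact des_cl c h q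
        exact (Des.no2 dp dq (disj_cl c hqp.symm)).elim
  · push Not at h0 h1
    obtain ⟨B, B', hB, hB', hBB⟩ := h0
    have hs := sum_lam c {c B, c B'}
    rw [sum_pair hBB] at hs
    have hl := lam_pos c h hB
    have hl' := lam_pos c h hB'
    have h3 : ∃ p, lam c p = 2 := by
      have e1 := h1 (c B)
      have e2 := h1 (c B')
      by_cases h4 : lam c (c B) ≤ 2
      · exact ⟨c B, by omega⟩
      · exact ⟨c B', by omega⟩
    obtain ⟨p, hp⟩ := h3
    have dp : Des 2 (cl c p) := by rw [← hp]; exact des_cl c h p
    have h2 : ∀ A A' : Finset (Fin 7), A.card = 3 → A'.card = 3 → c A ≠ p → c A' ≠ p →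
        c A = c A' := by
      intro A A' hA hA' hAp hAp'
      by_contra hc
      have hs2 := sum_lam c {p, c A, c A'}
      rw [sum_insert (by simp [hAp.symm, hAp'.symm]), sum_pair hc, hp] at hs2
      have hm := lam_pos c h hA
      have hm' := lam_pos c h hA'
      have e1 := h1 (c A)
      have e2 := h1 (c A')
      omega
    obtain ⟨σ, hσ⟩ := dp.iso2
    refine ⟨2, σ, by norm_num, fun A A' hA hA' => ?_⟩
    have hA1 := hσ A hA
    have hA2 := hσ A' hA'
    have cA := card_map7 σ hA
    have cA' := card_map7 σ hA'
    rw [mem_cl] at hA1 hA2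
    simp only [cA, cA', true_and] at hA1 hA2
    simp only [std]
    by_cases e1 : (F1m ||| F2m).testBit (code A) = true
    · by_cases e2 : (F1m ||| F2m).testBit (code A') = true
      · rw [if_pos e1, if_pos e2, hA1.mpr e1, hA2.mpr e2]; simp
      · rw [if_pos e1, if_neg e2, hA1.mpr e1]
        constructor
        · intro hh; exact absurd (hA2.mp hh.symm) e2
        · intro hh; exact absurd hh (by norm_num)
    · by_cases e2 : (F1m ||| F2m).testBit (code A') = true
      · rw [if_neg e1, if_pos e2, hA2.mpr e2]
        constructor
        · intro hh; exact absurd (hA1.mp hh) e1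
        · intro hh; exact absurd hh (by norm_num)
      · rw [if_neg e1, if_neg e2]
        simp only [iff_true]
        exact h2 _ _ cA cA' (fun hh => e1 (hA1.mp hh)) (fun hh => e2 (hA2.mp hh))

end

end Pool.Agent.HSF98.X80
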