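import Pool.Agent.HSF98.X80.Grp
import Pool.Agent.HSF98.X80.Col7

set_option autoImplicit false
set_option maxRecDepth 100000

/-! Transitivity data for the standard colourings of triples of seven points and of
quadruples of eight points. -/

namespace Pool.Agent.HSF98.X80

/-- The standard colourings of the quadruples of eight points. -/
def std8 (t s : ℕ) : ℕ := if s.testBit 7 = true then std t (s - 128) else std t (127 - s)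

def gens7_0 : List (List ℕ) := [[1, 2, 3, 4, 5, 6, 0], [1, 0, 2, 3, 4, 5, 6]]

def reps7_0 : List ℕ := [0, 0, 0, 1, 0, 0, 3, 0, 0, 7, 0, 0]

def words7_0 : List (List ℕ) := [
  [], [], [1], [], [0, 0, 0, 0, 0], [1, 0, 0, 0, 0, 0, 0],
  [0, 0, 0, 0, 0, 0], [], [0, 0, 0, 0], [0, 1, 0, 1, 0, 1, 0], [0, 0, 0, 0, 0, 1, 0], [0, 0, 0, 0, 0, 1, 0, 0],
  [0, 0, 0, 0, 0], [1, 0, 0, 0, 0, 0, 0], [0, 0, 0, 0, 0, 0], [], [0, 0, 0], [0, 1, 0, 1, 0],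
  [1, 0, 1, 0, 1, 0], [0, 0, 0, 0, 1, 0, 1, 0, 0], [0, 0, 0, 0, 1, 0], [1, 0, 0, 0, 0, 1, 0, 0], [0, 0, 0, 0, 1, 0, 0], [],
  [0, 0, 0, 0], [0, 1, 0, 1, 0, 0], [1, 0, 1, 0, 1, 0, 0], [], [0, 0, 0, 0, 0], [],
  [], [], [0, 0], [0, 1, 0], [1, 0, 1, 0], [0, 0, 1, 0, 0, 0, 0, 0, 0],
  [0, 0, 0, 1, 0, 1, 0], [1, 0, 0, 0, 1, 0, 1, 0, 0], [0, 0, 0, 1, 0, 1, 0, 0], [], [0, 0, 0, 1, 0], [0, 0, 1, 0, 0, 0, 1, 0, 1, 0, 0],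
  [1, 0, 0, 1, 0, 0, 0, 1, 0, 1, 0, 0], [], [0, 0, 0, 1, 0, 0], [], [], [],
  [0, 0, 0], [0, 1, 0, 0], [1, 0, 1, 0, 0], [], [0, 0, 0, 0, 0, 1, 0, 0, 0, 0, 0, 0], [],
  [], [], [0, 0, 0, 0], [], [], [],
  [], [], [], [], [0], [0],
  [1, 0], [0], [0, 0, 1, 0, 1, 0, 1, 0], [1, 0, 1, 0, 0, 0, 0, 0, 0], [0, 1, 0, 0, 0, 0, 0, 0], [],
  [0, 0, 1, 0, 1, 0], [1, 0, 1, 0, 0, 0, 0, 1, 0, 0], [0, 1, 0, 0, 0, 0, 1, 0, 0], [], [0, 0, 1, 0, 1, 0, 0], [],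
  [], [], [0, 0, 1, 0], [0, 0, 0, 1, 0, 0, 0, 0, 0, 0], [0, 1, 0, 0, 0, 1, 0, 1, 0, 0], [],
  [0, 0, 0, 1, 0, 0, 0, 1, 0, 1, 0, 0], [], [], [], [0, 0, 1, 0, 0], [],
  [], [], [], [], [], [],
  [0, 0], [0, 0], [1, 0, 0], [], [0, 1, 0, 1, 0, 0, 0, 0, 1, 0, 0], [],
  [], [], [0, 0, 0, 0, 1, 0, 0, 0, 0, 0, 0], [], [], [],
  [], [], [], [], [0, 0, 0], [],
  [], [], [], [], [], [],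
  [], [], [], [], [], [],
  [], []]

theorem gc7_0 : gcheck 7 3 (std 0) gens7_0 = true := by decide +kernel

theorem wc7_0 : wcheck 7 3 3 (std 0) gens7_0 words7_0 reps7_0 = true := by decide +kernel

def gens7_1 : List (List ℕ) := [[3, 6, 0, 4, 2, 5, 1], [5, 1, 4, 6, 2, 3, 0]]

def reps7_1 : List ℕ := [0, 0, 0, 1, 0, 0, 3, 0, 0, 7, 11, 0]

def words7_1 : List (List ℕ) := [
  [], [], [0, 1], [], [0], [0, 0, 1, 0],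
  [1, 0, 0], [], [1, 1], [0, 1, 0], [1, 1], [],
  [1, 0, 1, 0, 0], [0, 0, 1, 0], [1, 1], [], [0, 0], [1, 1, 1, 0],
  [0, 0], [1, 1, 0, 0], [0, 0, 0, 1, 0], [1, 1, 1, 0], [0, 0], [],
  [1, 0], [0, 1, 0], [0, 0], [], [1, 0], [],
  [], [], [1, 1, 1], [0, 1, 0, 0, 0], [1, 1, 1], [1, 1, 0, 1],
  [1, 1, 0], [1, 0, 1, 1, 0], [1, 0, 0], [], [1, 0, 0, 0], [1, 1, 0, 0, 0],
  [1, 0, 1], [], [1, 1, 0], [], [], [],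
  [0, 1, 1, 0], [0, 1, 1, 0], [1, 1, 1], [], [1, 1, 0], [],
  [], [], [0, 1, 1, 0], [], [], [],
  [], [], [], [], [1], [0, 1, 1],
  [1], [0, 0, 1], [0], [0], [0, 0, 0, 1], [],
  [0, 0, 0], [0, 0, 0], [0, 1], [], [1, 0, 1, 1], [],
  [], [], [0, 1, 0, 0], [0, 1, 1], [1], [],
  [0], [], [], [], [1, 0], [],
  [], [], [], [], [], [],
  [1, 0, 1, 0], [0, 1, 0, 1], [1], [], [1, 0, 1, 0], [],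
  [], [], [1, 0, 0, 0], [], [], [],
  [], [], [], [], [0, 1, 0, 0], [],
  [], [], [], [], [], [],
  [], [], [], [], [], [],
  [], []]

theorem gc7_1 : gcheck 7 3 (std 1) gens7_1 = true := by decide +kernel

theorem wc7_1 : wcheck 7 3 3 (std 1) gens7_1 words7_1 reps7_1 = true := by decide +kernel

def gens7_2 : List (List ℕ) := [[3, 4, 5, 6, 0, 1, 2], [6, 4, 2, 0, 5, 3, 1]]

def reps7_2 : List ℕ := [0, 0, 0, 1, 0, 0, 3, 0, 0, 7, 11, 0]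

def words7_2 : List (List ℕ) := [
  [], [], [0, 0], [], [0, 1, 1], [1, 1, 0, 0],
  [0, 0], [], [1], [0, 1], [1, 0, 0, 1], [],
  [0, 0, 0, 0], [0, 1], [0, 0], [], [0], [0, 0, 1],
  [1, 0], [1, 0], [0, 1, 1], [1, 1, 0, 0], [0, 0], [],
  [1, 1, 1], [0, 0, 1], [1, 0], [], [1, 1, 1], [],
  [], [], [1, 1], [1, 1], [0, 1, 0], [0, 1, 0],
  [0, 0, 1, 0], [1, 1], [0, 0, 1, 0], [], [1, 0, 1], [1, 0, 1],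
  [1, 0, 0, 1], [], [1, 0, 1], [], [], [],
  [0], [0], [0, 1, 0], [], [0, 0, 1, 0], [],
  [], [], [1, 1, 0, 1], [], [], [],
  [], [], [], [], [1, 0, 0], [1, 1, 1, 0],
  [1, 1, 0], [0, 1, 1, 1], [1, 0, 0], [1, 1, 0, 0], [1, 0, 0], [],
  [1], [0, 1], [1, 1, 0], [], [1], [],
  [], [], [1, 0, 1, 0], [0, 0, 1], [1, 0, 1, 0], [],
  [0, 1, 1], [], [], [], [1, 0, 1, 0], [],
  [], [], [], [], [], [],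
  [0, 0, 0], [0, 0, 0], [0, 0, 0], [], [1, 0, 0], [],
  [], [], [1], [], [], [],
  [], [], [], [], [0], [],
  [], [], [], [], [], [],
  [], [], [], [], [], [],
  [], []]

theorem gc7_2 : gcheck 7 3 (std 2) gens7_2 = true := by decide +kernel

theorem wc7_2 : wcheck 7 3 3 (std 2) gens7_2 words7_2 reps7_2 = true := by decide +kernel

def gens7_3 : List (List ℕ) := [[6, 0, 1, 2, 3, 4, 5], [6, 1, 3, 5, 0, 2, 4]]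

def reps7_3 : List ℕ := [0, 0, 0, 1, 0, 0, 3, 0, 0, 7, 11, 13]

def words7_3 : List (List ℕ) := [
  [], [], [0], [], [0, 0], [0, 1, 1],
  [0], [], [0, 0, 0], [0, 0, 1, 0], [1, 1, 0], [],
  [0, 0], [], [0], [], [1], [0, 0, 0, 1],
  [1], [0, 0, 0, 1], [0, 1, 1, 0], [0, 1, 1], [0], [],
  [0, 0, 0], [0, 0, 1, 0], [0], [], [0, 0], [],
  [], [], [0, 1], [1, 0, 1, 0], [1, 0], [1, 1, 0],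
  [0, 1], [1, 0, 1, 0], [1, 0], [], [1, 0, 1], [1, 0, 1],
  [1, 1, 0], [], [0, 0], [], [], [],
  [0, 0, 0, 0], [0, 0, 0, 0], [1], [], [1], [],
  [], [], [0, 0, 0], [], [], [],
  [], [], [], [], [1, 1], [1, 0, 1, 0, 1],
  [1, 1], [1, 0, 1, 0, 1], [0, 1, 0], [0, 1, 0], [1, 0], [],
  [0, 0, 1], [0, 0, 1], [1, 1], [], [0, 1, 0], [],
  [], [], [0, 1, 0, 1], [0, 0, 1], [0, 1, 0, 1], [],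
  [0, 1, 1, 0], [], [], [], [0, 0, 0], [],
  [], [], [], [], [], [],
  [0, 0, 0, 0, 0], [0, 0, 0, 0, 0], [1, 0], [], [0, 1], [],
  [], [], [0, 1], [], [], [],
  [], [], [], [], [0, 0, 0, 0], [],
  [], [], [], [], [], [],
  [], [], [], [], [], [],
  [], []]

theorem gc7_3 : gcheck 7 3 (std 3) gens7_3 = true := by decide +kernel

theorem wc7_3 : wcheck 7 3 3 (std 3) gens7_3 words7_3 reps7_3 = true := by decide +kernel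

def gens8_0 : List (List ℕ) := [[1, 2, 3, 4, 5, 6, 7, 0], [1, 0, 2, 3, 4, 5, 6, 7]]

def reps8_0 : List ℕ := [0, 0, 0, 1, 0, 0, 3, 0, 0, 7, 0, 0, 15, 0, 0]

def words8_0 : List (List ℕ) := [
  [], [], [1], [], [0, 0, 0, 0, 0, 0], [1, 0, 0, 0, 0, 0, 0, 0],
  [0, 0, 0, 0, 0, 0, 0], [], [0, 0, 0, 0, 0], [1, 0, 0, 0, 0, 0, 0, 1, 0], [0, 0, 0, 0, 0, 0, 1, 0], [0, 0, 0, 0, 0, 0, 1, 0, 0],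
  [0, 0, 0, 0, 0, 0], [1, 0, 0, 0, 0, 0, 0, 0], [0, 0, 0, 0, 0, 0, 0], [], [0, 0, 0, 0], [0, 1, 0, 1, 0, 1, 0],
  [1, 0, 1, 0, 1, 0, 1, 0], [0, 0, 0, 0, 0, 1, 0, 1, 0, 0], [0, 0, 0, 0, 0, 1, 0], [1, 0, 0, 0, 0, 0, 1, 0, 0], [0, 0, 0, 0, 0, 1, 0, 0], [0, 0, 0, 0, 0, 1, 0, 0, 0],
  [0, 0, 0, 0, 0], [0, 1, 0, 1, 0, 1, 0, 0], [1, 0, 1, 0, 1, 0, 1, 0, 0], [0, 0, 0, 0, 0, 0, 0, 1, 0, 1, 0, 0, 0, 0, 0, 0, 0], [0, 0, 0, 0, 0, 0], [1, 0, 0, 0, 0, 0, 0, 0],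
  [0, 0, 0, 0, 0, 0, 0], [], [0, 0, 0], [0, 1, 0, 1, 0], [1, 0, 1, 0, 1, 0], [0, 0, 0, 0, 1, 0, 1, 0, 1, 0, 0],
  [0, 0, 0, 0, 1, 0, 1, 0], [1, 0, 0, 0, 0, 1, 0, 1, 0, 0], [0, 0, 0, 0, 1, 0, 1, 0, 0], [0, 0, 0, 0, 1, 0, 1, 0, 0, 0], [0, 0, 0, 0, 1, 0], [0, 1, 0, 1, 0, 0, 0, 1, 0, 0, 0, 0, 0, 0, 0],
  [0, 0, 0, 0, 1, 0, 0, 0, 1, 0, 0, 0, 0, 0, 0, 0], [0, 1, 0, 1, 0, 0, 0, 1, 0, 0, 0, 1, 0, 1, 0, 0, 0], [0, 0, 0, 0, 1, 0, 0], [1, 0, 0, 0, 0, 1, 0, 0, 0], [0, 0, 0, 0, 1, 0, 0, 0], [],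
  [0, 0, 0, 0], [0, 1, 0, 1, 0, 0], [1, 0, 1, 0, 1, 0, 0], [0, 1, 0, 0, 1, 0, 1, 0, 0, 0, 0, 1, 0, 0, 0], [0, 0, 0, 0, 0, 0, 1, 0, 0, 0, 0, 0, 0, 0], [0, 1, 0, 1, 0, 0, 0, 0, 1, 0, 0, 0, 0, 0, 0, 0],
  [0, 0, 0, 0, 0, 0, 1, 0, 1, 0, 0, 0, 0, 0, 0, 0], [], [0, 0, 0, 0, 0], [0, 1, 0, 1, 0, 0, 0], [1, 0, 1, 0, 1, 0, 0, 0], [],
  [0, 0, 0, 0, 0, 0], [], [], [], [0, 0], [0, 1, 0],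
  [1, 0, 1, 0], [0, 0, 1, 0, 0, 0, 0, 0, 0, 0], [0, 0, 0, 1, 0, 1, 0, 1, 0], [0, 0, 1, 0, 0, 0, 0, 0, 1, 0, 0], [0, 0, 0, 1, 0, 1, 0, 1, 0, 0], [0, 0, 1, 0, 0, 0, 0, 0, 0, 0],
  [0, 0, 0, 1, 0, 1, 0], [0, 0, 1, 0, 0, 0, 0, 1, 0, 1, 0, 0], [1, 0, 0, 1, 0, 0, 0, 0, 1, 0, 1, 0, 0], [0, 0, 1, 0, 0, 0, 0, 1, 0, 0, 0], [0, 0, 0, 1, 0, 1, 0, 0], [1, 0, 0, 0, 1, 0, 1, 0, 0, 0],
  [0, 0, 0, 1, 0, 1, 0, 0, 0], [], [0, 0, 0, 1, 0], [0, 1, 0, 0, 0, 1, 0, 0, 0, 0, 0, 0, 0], [1, 0, 1, 0, 0, 0, 1, 0, 0, 0, 0, 0, 0, 0], [0, 0, 1, 0, 0, 0, 1, 0, 1, 0, 0, 0],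
  [0, 0, 0, 1, 0, 0, 0, 1, 0, 0, 0, 0, 0, 0, 0], [0, 1, 0, 0, 0, 1, 0, 0, 0, 1, 0, 1, 0, 0, 0], [1, 0, 1, 0, 0, 0, 1, 0, 0, 0, 1, 0, 1, 0, 0, 0], [], [0, 0, 0, 1, 0, 0], [0, 1, 0, 0, 0, 1, 0, 1, 0, 0, 0, 0, 0, 0, 0],
  [0, 0, 0, 1, 0, 0, 0, 0, 1, 0, 0, 0, 0, 0, 0, 0], [], [0, 0, 0, 1, 0, 0, 0], [], [], [],
  [0, 0, 0], [0, 1, 0, 0], [1, 0, 1, 0, 0], [0, 0, 1, 0, 1, 0, 0, 0, 0, 0, 0, 0], [0, 0, 1, 0, 1, 0, 0, 0, 0, 1, 0, 1, 0, 0], [0, 0, 1, 0, 1, 0, 0, 0, 0, 1, 0, 0, 0],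
  [1, 0, 0, 1, 0, 1, 0, 0, 0, 0, 1, 0, 0, 0], [], [0, 0, 0, 0, 0, 1, 0, 0, 0, 0, 0, 0, 0], [0, 1, 0, 0, 0, 0, 1, 0, 0, 0, 0, 0, 0, 0], [1, 0, 1, 0, 0, 0, 0, 1, 0, 0, 0, 0, 0, 0, 0], [],
  [0, 0, 0, 0, 0, 1, 0, 1, 0, 0, 0, 0, 0, 0, 0], [], [], [], [0, 0, 0, 0], [0, 1, 0, 0, 0],
  [1, 0, 1, 0, 0, 0], [], [0, 0, 0, 0, 0, 0, 1, 0, 0, 0, 0, 0, 0, 0], [], [], [],
  [0, 0, 0, 0, 0], [], [], [], [], [],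
  [], [], [0], [0], [1, 0], [0],
  [0, 1, 0, 0, 0, 0, 0, 0, 1, 0], [1, 0, 1, 0, 0, 0, 0, 0, 0, 0], [0, 1, 0, 0, 0, 0, 0, 0, 0], [0], [0, 0, 1, 0, 1, 0, 1, 0], [1, 0, 1, 0, 0, 0, 0, 0, 1, 0, 0],
  [0, 1, 0, 0, 0, 0, 0, 1, 0, 0], [0, 0, 0, 0, 0, 0, 1, 0, 0, 0], [0, 0, 1, 0, 1, 0, 1, 0, 0], [1, 0, 1, 0, 0, 0, 0, 0, 0, 0], [0, 1, 0, 0, 0, 0, 0, 0, 0], [],
  [0, 0, 1, 0, 1, 0], [1, 0, 1, 0, 0, 0, 0, 1, 0, 1, 0, 0], [0, 1, 0, 0, 0, 0, 1, 0, 1, 0, 0], [0, 0, 0, 0, 0, 1, 0, 1, 0, 0, 0], [0, 0, 1, 0, 1, 0, 0, 0, 1, 0, 0, 0, 0, 0, 0, 0], [1, 0, 1, 0, 0, 0, 0, 1, 0, 0, 0],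
  [0, 1, 0, 0, 0, 0, 1, 0, 0, 0], [], [0, 0, 1, 0, 1, 0, 0], [0, 0, 1, 0, 0, 1, 0, 1, 0, 0, 0, 0, 1, 0, 0, 0], [0, 0, 1, 0, 1, 0, 0, 0, 0, 1, 0, 0, 0, 0, 0, 0, 0], [],
  [0, 0, 1, 0, 1, 0, 0, 0], [], [], [], [0, 0, 1, 0], [0, 0, 0, 1, 0, 0, 0, 0, 0, 0, 0],
  [1, 0, 0, 0, 1, 0, 0, 0, 0, 0, 0, 0], [0, 0, 0, 1, 0, 0, 0, 0, 0, 0, 0], [0, 0, 0, 1, 0, 0, 0, 0, 1, 0, 1, 0, 0], [0, 0, 0, 1, 0, 0, 0, 0, 1, 0, 0, 0], [0, 1, 0, 0, 0, 1, 0, 1, 0, 0, 0], [],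
  [0, 0, 1, 0, 0, 0, 1, 0, 0, 0, 0, 0, 0, 0], [0, 0, 0, 1, 0, 0, 0, 1, 0, 1, 0, 0, 0], [1, 0, 0, 0, 1, 0, 0, 0, 1, 0, 1, 0, 0, 0], [], [0, 0, 1, 0, 0, 0, 1, 0, 1, 0, 0, 0, 0, 0, 0, 0], [],
  [], [], [0, 0, 1, 0, 0], [0, 0, 0, 1, 0, 1, 0, 0, 0, 0, 0, 0, 0], [1, 0, 0, 0, 1, 0, 1, 0, 0, 0, 0, 0, 0, 0], [],
  [0, 0, 1, 0, 0, 0, 0, 1, 0, 0, 0, 0, 0, 0, 0], [], [], [], [0, 0, 1, 0, 0, 0], [],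
  [], [], [], [], [], [],
  [0, 0], [0, 0], [1, 0, 0], [0, 0], [0, 1, 0, 1, 0, 0, 0, 0, 0, 1, 0, 0], [0, 0, 0, 0, 0, 0, 0, 1, 0, 0, 0],
  [0, 1, 0, 1, 0, 0, 0, 0, 0, 0, 0], [], [0, 1, 0, 1, 0, 0, 0, 0, 1, 0, 1, 0, 0], [0, 0, 0, 0, 0, 0, 1, 0, 1, 0, 0, 0], [0, 1, 0, 1, 0, 0, 0, 0, 1, 0, 0, 0], [],
  [0, 0, 0, 1, 0, 0, 1, 0, 1, 0, 0, 0, 0, 1, 0, 0, 0], [], [], [], [0, 0, 0, 0, 1, 0, 0, 0, 0, 0, 0, 0], [0, 0, 0, 0, 1, 0, 0, 0, 0, 0, 0, 0],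
  [1, 0, 0, 0, 0, 1, 0, 0, 0, 0, 0, 0, 0], [], [0, 0, 0, 0, 1, 0, 0, 0, 1, 0, 1, 0, 0, 0], [], [], [],
  [0, 0, 0, 0, 1, 0, 1, 0, 0, 0, 0, 0, 0, 0], [], [], [], [], [],
  [], [], [0, 0, 0], [0, 0, 0], [1, 0, 0, 0], [],
  [0, 0, 0, 0, 0, 0, 0, 1, 0, 1, 0, 0, 0], [], [], [], [0, 0, 0, 0, 0, 1, 0, 0, 0, 0, 0, 0, 0], [],
  [], [], [], [], [], [],
  [0, 0, 0, 0], [], [], [], [], [],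
  [], [], [], [], [], [],
  [], [], [], []]

theorem gc8_0 : gcheck 8 4 (std8 0) gens8_0 = true := by decide +kernel

theorem wc8_0 : wcheck 8 4 4 (std8 0) gens8_0 words8_0 reps8_0 = true := by decide +kernel

def gens8_1 : List (List ℕ) := [[4, 0, 7, 6, 3, 5, 2, 1], [2, 6, 3, 5, 7, 1, 0, 4]]

def reps8_1 : List ℕ := [0, 0, 0, 1, 0, 0, 3, 0, 0, 7, 0, 0, 15, 29, 0]

def words8_1 : List (List ℕ) := [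
  [], [], [0], [], [0, 0, 0], [1, 1, 0, 1],
  [1, 0, 0, 0, 0], [], [0, 1], [1, 1, 1, 1], [1, 1], [0, 0, 1, 1, 1, 0],
  [1, 0, 1], [1, 1, 0, 1], [0, 1, 1, 0, 0], [], [1, 0, 0], [1, 0, 0],
  [1, 1, 1, 0, 0], [0, 0, 1, 0, 1, 0], [0, 1, 1, 0], [1, 0, 0], [0, 1, 0, 1, 1, 0], [0, 1, 1, 0, 1, 1],
  [0, 0, 0, 0, 0], [0, 1, 0, 1, 0], [0, 0, 0, 0, 0], [0, 1, 0, 1, 0], [1, 1, 1, 0], [],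
  [0, 0, 0, 0, 0], [], [1, 0], [0, 1, 0], [0, 0, 1, 0], [1, 1, 0, 0, 0, 0],
  [1, 1, 1], [0, 0, 0, 1], [1, 1, 1], [1, 0, 1], [0, 1], [1, 1, 1, 1],
  [0, 1], [1, 1, 1, 1], [1, 0, 1], [1, 1, 0, 1], [1, 0, 1], [],
  [1, 0], [1, 0, 1, 0, 0, 0], [1, 0], [1, 1, 1, 0, 1, 0], [0, 1, 1, 0], [0, 1, 1, 0],
  [0, 0, 1, 1, 1, 0, 0], [], [1, 1, 1, 1, 1, 0, 0], [1, 0, 1, 0, 0, 0], [1, 1, 0], [],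
  [0, 0, 1, 1, 1], [], [], [], [1], [0, 0, 1, 1, 0],
  [0, 1, 1, 0, 1], [0, 1, 0, 0], [0, 0, 0], [1, 1, 1, 0, 1], [1, 0, 0, 0, 0], [0, 0, 0, 1, 1],
  [0, 0, 0, 0], [0, 0, 0, 0], [1, 1], [1, 1], [1, 1, 1, 1, 1], [1, 1, 1, 0, 1],
  [0, 1], [], [0, 1, 0, 1], [0, 1, 1, 1, 0], [1, 1, 1, 0, 0], [0],
  [0, 0, 0], [1, 0, 0], [0, 0, 0], [], [1, 0, 1, 0], [1, 0, 1, 0],
  [0, 1, 1, 1, 0, 1], [], [1, 0, 1, 1, 1, 0, 0], [], [], [],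
  [1], [1], [1, 0, 1, 0, 0], [0, 0, 1, 1, 0], [0, 1, 0, 0, 0, 0, 0], [1],
  [1, 1, 1], [], [1, 1, 1, 0, 0, 0, 0], [0, 1, 0, 0], [0, 1], [],
  [1, 1, 1, 1, 1], [], [], [], [0, 1, 0, 1], [0, 0, 0, 1, 1, 1],
  [1, 1, 1, 0, 0], [], [1, 0, 0], [], [], [],
  [1, 1, 0, 0, 0], [], [], [], [], [],
  [], [], [0, 0], [1, 0, 1, 1, 0], [0], [1, 0, 0, 0],
  [0, 0], [1, 1, 1, 1, 0], [0, 1, 0, 0, 0], [0, 0, 0, 1, 0, 1, 0], [1, 1, 0], [1, 0, 1, 1, 0],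
  [0, 0, 1, 0, 0], [0, 0], [0, 0], [0, 0], [0, 1, 1, 0, 0], [],
  [0, 1, 1], [1, 1, 0, 1, 1], [1, 0, 0, 1, 1, 0, 0], [0, 0, 1, 0, 1, 0], [1, 0, 1, 1], [0, 0, 1, 1],
  [0, 0, 0], [], [0, 1, 1], [1, 1, 0, 1, 1], [0, 1, 1], [],
  [1, 1, 1, 0], [], [], [], [0, 0, 0, 1, 0], [0, 1, 0],
  [1, 1, 1, 1, 0, 0], [1, 0, 0, 0], [1, 0, 0, 0, 0, 0], [0, 1, 0], [0, 1, 0, 0, 0], [],
  [1, 1, 0], [0, 1, 1, 1, 0, 0], [1, 1, 1, 1, 0, 0], [], [0, 1, 0], [],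
  [], [], [0, 0, 1], [1, 0, 0, 0], [1, 0], [],
  [1, 0, 1, 1], [], [], [], [1, 1, 0], [],
  [], [], [], [], [], [],
  [1, 1, 0, 0], [1, 1, 0, 0], [0], [1, 1, 0, 0], [0, 0, 1, 0, 0, 0], [1],
  [1, 1, 0, 1, 0], [], [0, 1, 0, 0, 0, 0], [0, 0, 0, 0], [0, 0, 0, 0, 1, 1], [],
  [0, 1, 1, 0, 1, 0], [], [], [], [0, 0, 1, 1, 0, 0], [1, 0, 0, 1, 1],
  [0], [], [0, 0, 1, 1, 0, 0], [], [], [],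
  [0, 0, 1], [], [], [], [], [],
  [], [], [0, 1, 1, 1], [1, 0, 1, 1, 0, 1, 1], [1, 0], [],
  [0, 0, 1, 0, 0, 0], [], [], [], [0, 1, 1, 1], [],
  [], [], [], [], [], [],
  [0, 1, 0, 1], [], [], [], [], [],
  [], [], [], [], [], [],
  [], [], [], []]

theorem gc8_1 : gcheck 8 4 (std8 1) gens8_1 = true := by decide +kernel

theorem wc8_1 : wcheck 8 4 4 (std8 1) gens8_1 words8_1 reps8_1 = true := by decide +kernel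

def gens8_2 : List (List ℕ) := [[3, 0, 1, 4, 7, 6, 2, 5], [0, 3, 6, 2, 5, 1, 4, 7]]

def reps8_2 : List ℕ := [0, 0, 0, 1, 0, 0, 3, 0, 0, 7, 0, 0, 15, 23, 0]

def words8_2 : List (List ℕ) := [
  [], [], [0], [], [0, 0], [0, 0, 1, 1],
  [0], [], [1, 0, 0], [1, 0, 0, 1, 1], [0, 1, 1], [1, 0, 1, 1, 0],
  [1, 0, 0], [0, 1, 1, 0], [0, 1, 1], [], [1, 1, 0], [1, 1],
  [1, 1, 0], [1, 1], [0, 0, 1], [1, 1, 1, 1], [0, 0, 1], [],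
  [0, 0, 1, 0, 1], [0, 0, 0, 0, 0, 0], [1, 1, 0], [1, 1, 0], [1, 0, 0], [1, 0, 0],
  [1, 0, 0, 0, 1], [], [1, 0], [1], [1, 0, 1, 1], [0, 0, 1, 0, 0],
  [0, 0, 0, 0, 1, 1], [0, 1, 1, 0, 0], [1, 1, 1, 0, 0], [0, 0, 1, 0, 0], [1, 0], [1],
  [1, 0, 1, 1], [1], [1, 0], [1, 0], [1, 0], [],
  [1, 1, 0, 1, 1], [0, 1, 1, 0, 0, 0], [0, 0, 1, 0], [1, 1], [1, 1, 1, 1, 0], [1, 1, 1, 1, 0],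
  [0, 0, 1, 0], [], [0, 1, 0, 0, 0, 0], [0, 0, 0, 0, 0, 0], [1, 1, 0], [],
  [1, 0, 0], [], [], [], [0, 0, 0], [1, 1, 1],
  [0, 0, 0, 1, 1], [0, 0, 1, 1, 0], [0, 0], [0, 0, 1, 1], [0], [0],
  [0, 0, 0, 1], [0, 1, 0, 0], [1, 1, 0, 0], [0, 1, 0, 0], [0, 0, 0, 1], [1, 0, 0, 1, 1],
  [0], [], [0, 0, 1, 0, 1, 1], [0, 0, 0, 0, 1, 0], [0, 1, 0, 1, 0], [0, 1, 0, 1, 0],
  [1, 1, 0, 0, 1, 0], [0, 0, 1, 1], [0, 0, 1], [], [0, 1, 0, 0, 0], [0, 1, 0, 0, 0],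
  [1, 1, 0, 0], [], [0, 0, 0, 1], [], [], [],
  [0, 0, 0], [1, 1, 1], [1, 1, 1, 0], [1, 1, 1, 0], [0, 0], [0, 0],
  [0, 0], [], [1, 0, 0, 1], [1], [0, 0, 0, 1, 1], [],
  [0, 0, 0, 1], [], [], [], [1, 0, 0, 1, 0], [1, 1, 1],
  [0, 0, 1, 0], [], [1, 0, 0, 1, 0], [], [], [],
  [1, 0, 0, 1, 0], [], [], [], [], [],
  [], [], [0, 1, 0], [0, 1, 0], [0, 1], [0, 1],
  [0, 1, 0, 1, 1], [1, 0, 1, 0], [1, 1, 1, 0, 0, 0], [0, 1], [1, 0, 1, 0, 1, 1], [1, 1, 0, 1, 0],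
  [1, 0, 0, 0, 1, 0], [1, 1, 0, 1, 0], [0, 0, 0, 1, 0], [1, 0, 1, 0], [0, 1, 1], [],
  [0, 1, 0, 1], [1, 1, 0, 1], [0, 1, 0, 1], [0, 1, 0, 1], [1, 0, 0, 0], [0, 1, 0, 1, 1],
  [0, 0, 1], [], [0, 0, 0, 0, 0], [1, 1, 0, 1, 0], [0, 1, 0, 1], [],
  [1, 0, 0, 0], [], [], [], [1, 0, 1], [1, 0, 1],
  [0, 1, 1, 1], [0, 1], [0, 1, 1, 1, 0], [1, 0, 1, 0], [0, 1, 1, 1, 0], [],
  [0, 1, 0, 0, 1, 0], [1, 0, 1], [1, 0, 1, 1], [], [0, 0, 0, 1, 0], [],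
  [], [], [0, 0, 0, 0], [1, 0, 1], [1, 1, 0, 1, 1], [],
  [0, 0, 0, 0], [], [], [], [0, 0, 0, 0, 0], [],
  [], [], [], [], [], [],
  [1, 0, 1, 0, 1], [0, 1, 0], [1, 0, 0, 0, 0, 0], [0, 1, 0], [1, 1, 0, 0, 0, 0], [0, 1, 0],
  [1, 0, 0, 0, 0, 0], [], [1, 1, 0, 0, 0], [0, 1, 0, 0], [1, 1, 0, 0, 0], [],
  [0, 0, 0, 1, 0], [], [], [], [1, 0, 0, 0, 0], [1, 1, 0, 1],
  [0, 1, 0, 1, 0], [], [1, 0, 0, 0, 0], [], [], [],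
  [0, 0, 0, 0, 0], [], [], [], [], [],
  [], [], [0, 0, 0], [0, 0, 0, 0, 1], [0, 0, 0], [],
  [0, 0, 0], [], [], [], [1, 0, 0, 1], [],
  [], [], [], [], [], [],
  [0, 0, 0, 0], [], [], [], [], [],
  [], [], [], [], [], [],
  [], [], [], []]

theorem gc8_2 : gcheck 8 4 (std8 2) gens8_2 = true := by decide +kernel

theorem wc8_2 : wcheck 8 4 4 (std8 2) gens8_2 words8_2 reps8_2 = true := by decide +kernel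

def gens8_3 : List (List ℕ) := [[4, 7, 2, 6, 5, 1, 0, 3], [0, 7, 5, 2, 1, 4, 3, 6]]

def reps8_3 : List ℕ := [0, 0, 0, 1, 0, 0, 3, 0, 0, 7, 0, 0, 15, 29, 23]

def words8_3 : List (List ℕ) := [
  [], [], [0, 1, 0], [], [1, 0, 0, 1, 0], [1, 1, 1],
  [0, 1, 0], [], [0, 0], [0, 0, 1, 1], [1, 1, 0], [1, 0, 0, 0],
  [1, 0, 0, 1, 0], [1, 1, 1, 1, 1, 0, 1], [0, 1, 1, 0, 0], [], [1, 0, 1, 0], [1],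
  [0, 0, 1, 1, 0], [1, 1, 0, 1], [0, 0, 0, 1, 0], [0, 0, 0, 0, 1, 0], [1, 1, 1, 1, 1, 0], [],
  [0, 0], [1], [1, 0, 1, 0], [1, 1, 1, 1], [0, 0], [],
  [0, 0], [], [0, 0, 1, 0], [1, 1], [1, 1, 0, 0, 0, 0], [0, 0, 0, 1, 1, 0],
  [0, 0, 1, 0], [1, 1, 1, 1, 0, 1], [0, 0, 1, 0], [0, 0, 0, 0, 0], [0, 0, 0, 0, 0], [0, 1, 1, 1, 1, 0, 0],
  [1, 1, 0, 1, 0, 1], [0, 1, 0, 0, 1], [0, 0, 0, 0, 0], [0, 0, 0, 0, 0], [0, 0, 1, 0], [],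
  [1, 0, 0, 1, 1, 0], [1, 1, 1, 0, 1], [1, 0, 0, 1, 1, 0], [1, 1, 1, 0, 1], [0, 0, 0, 1, 0], [0, 0, 0, 1, 0],
  [0, 0, 1, 0], [], [0, 0, 1, 0, 1], [1], [0, 0, 1, 0], [],
  [1, 0, 0, 1, 0], [], [], [], [0], [0, 1],
  [0, 0, 0, 0], [1, 0, 0, 1, 1], [0, 1, 1, 1], [0, 0, 0, 0, 0, 1, 0], [0, 0, 0, 0], [1, 0, 1, 1, 0],
  [0, 0, 1], [0, 1, 1, 0, 0, 0], [1, 1, 0], [1, 1, 0], [1, 0, 0, 0, 0, 0], [1, 0, 0, 0, 0, 0],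
  [0, 0], [], [0, 1, 1], [1, 1, 0, 0, 0], [1, 1, 1, 1, 0, 0], [1, 1, 0],
  [1, 1, 1, 0, 1, 0, 1], [0, 0, 0, 0, 1, 0], [0, 0, 0, 0], [], [0, 1, 1], [1],
  [1, 1, 0], [], [0, 0], [], [], [],
  [0], [1, 1], [0, 1, 0, 1], [1, 0, 1, 0, 0], [0], [0],
  [0, 1, 1, 1], [], [1, 0, 0], [1], [0, 1, 0, 1], [],
  [1, 1, 0, 0, 1, 0], [], [], [], [1, 1, 0, 1, 0], [1, 1, 1, 1, 1],
  [0, 1, 0, 1], [], [1, 0, 0, 1, 0], [], [], [],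
  [1, 0, 0], [], [], [], [], [],
  [], [], [1, 0], [0, 0, 0], [0, 0, 0, 0, 1], [1, 0, 1],
  [1, 0], [0, 0, 0], [0, 1, 0], [1, 1, 1], [0, 0, 0, 1], [0, 0, 1, 1],
  [1, 1, 1, 0, 0], [1, 0], [1, 0], [1, 0], [1, 0], [],
  [1, 0, 0, 0, 0], [0, 0, 0, 1, 0, 1], [0, 0, 1, 1, 0], [1, 1, 0, 1], [1, 0, 1, 0, 1], [1, 1, 0, 1, 0, 0],
  [0, 0, 0, 0], [], [0, 1, 0, 0], [0, 1, 0, 0], [0, 1, 0, 0], [],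
  [1, 0, 1, 1, 1], [], [], [], [0, 1, 1, 0], [0, 1, 0, 1, 0],
  [1, 1, 1, 1, 0], [1, 0, 1], [0, 0, 1, 1, 0, 0], [0, 0, 0], [0, 1, 0], [],
  [0, 1, 1, 0], [0, 1, 1, 0], [0, 0, 0, 1], [], [0, 0, 0], [],
  [], [], [1, 1, 1, 1, 1, 0, 0], [1, 1, 1, 0], [0, 0, 0, 0, 1], [],
  [0, 0, 0, 1, 0], [], [], [], [1, 0, 0, 0, 0], [],
  [], [], [], [], [], [],
  [1, 0, 0, 1], [0, 1], [0, 0, 0, 1, 1], [1, 0, 1], [1, 1, 0, 0], [0],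
  [0, 1, 0], [], [1, 1, 0, 0, 0, 0, 0], [0, 1], [0, 0, 1], [],
  [0, 1, 0, 0, 0, 0, 0], [], [], [], [1, 1, 1, 0], [0, 1],
  [1, 0, 0, 1], [], [1, 0, 1, 0, 1], [], [], [],
  [0, 1], [], [], [], [], [],
  [], [], [1, 0, 1, 1], [1, 1], [0, 1, 0], [],
  [0], [], [], [], [1, 0, 0], [],
  [], [], [], [], [], [],
  [1, 1, 1, 0], [], [], [], [], [],
  [], [], [], [], [], [],
  [], [], [], []]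

theorem gc8_3 : gcheck 8 4 (std8 3) gens8_3 = true := by decide +kernel

theorem wc8_3 : wcheck 8 4 4 (std8 3) gens8_3 words8_3 reps8_3 = true := by decide +kernel

end Pool.Agent.HSF98.X80
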