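import Pool.Agent.HSF98.X80.Mask

set_option autoImplicit false

/-! Transitivity of groups of permutations given by generators, checked on masks. -/

namespace Pool.Agent.HSF98.X80

open Finset

/-- `σ` preserves the label `l` of the sets of size `k`. -/
def Pres {n : ℕ} (k : ℕ) (l : ℕ → ℕ) (σ : Equiv.Perm (Fin n)) : Prop :=
  ∀ A : Finset (Fin n), A.card = k → l (code (A.map σ.toEmbedding)) = l (code A)

/-- `A` is mapped to `B` by a permutation preserving the labels. -/
def Rel {n : ℕ} (k : ℕ) (l : ℕ → ℕ) (A B : Finset (Fin n)) : Prop :=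
  ∃ σ : Equiv.Perm (Fin n), Pres k l σ ∧ A.map σ.toEmbedding = B

theorem Rel.refl {n : ℕ} (k : ℕ) (l : ℕ → ℕ) (A : Finset (Fin n)) : Rel k l A A := by
  refine ⟨1, ?_, ?_⟩
  · intro B _
    congr 2
    ext x; simp; rfl
  · ext x; simp; rfl

theorem Rel.trans {n : ℕ} {k : ℕ} {l : ℕ → ℕ} {A B C : Finset (Fin n)}
    (h1 : Rel k l A B) (h2 : Rel k l B C) : Rel k l A C := by
  obtain ⟨σ, hσ, rfl⟩ := h1
  obtain ⟨ρ, hρ, rfl⟩ := h2
  have hm : ∀ D : Finset (Fin n), D.map (ρ * σ).toEmbedding =
      (D.map σ.toEmbedding).map ρ.toEmbedding := by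
    intro D
    rw [map_map]; rfl
  refine ⟨ρ * σ, ?_, hm A⟩
  intro D hD
  rw [hm, hρ _ (by rw [card_map]; exact hD), hσ D hD]

theorem map_inv_map {n : ℕ} (σ : Equiv.Perm (Fin n)) (D : Finset (Fin n)) :
    (D.map (σ⁻¹ : Equiv.Perm (Fin n)).toEmbedding).map σ.toEmbedding = D := by
  rw [map_map]
  ext x
  simp

theorem Rel.symm {n : ℕ} {k : ℕ} {l : ℕ → ℕ} {A B : Finset (Fin n)}
    (h : Rel k l A B) : Rel k l B A := by
  obtain ⟨σ, hσ, rfl⟩ := h
  refine ⟨σ⁻¹, ?_, ?_⟩
  · intro D hD
    have h1 := hσ (D.map (σ⁻¹ : Equiv.Perm (Fin n)).toEmbedding) (by rw [card_map]; exact hD)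
    rw [map_inv_map] at h1
    exact h1.symm
  · rw [map_map]
    ext x
    simp

/-- The number of elements of the set with mask `s`. -/
def pc (n s : ℕ) : ℕ := (List.range n).countP (fun i => s.testBit i)

theorem card_S (n s : ℕ) : (S n s).card = pc n s := by
  rw [pc, List.countP_eq_length_filter, S]
  have h1 : ((List.range n).filter (fun i => s.testBit i)).Nodup :=
    List.nodup_range.filter _
  rw [← List.toFinset_card_of_nodup h1]
  refine Finset.card_bij (fun i _ => i.val) ?_ ?_ ?_
  · intro i hi
    rw [mem_filter] at hi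
    rw [List.mem_toFinset, List.mem_filter, List.mem_range]
    exact ⟨i.2, hi.2⟩
  · intro i _ j _ h
    exact Fin.ext h
  · intro i hi
    rw [List.mem_toFinset, List.mem_filter, List.mem_range] at hi
    exact ⟨⟨i, hi.1⟩, by rw [mem_filter]; exact ⟨mem_univ _, hi.2⟩, rfl⟩

/-- Apply a word of generators to a mask. -/
def app (n : ℕ) (gens : List (List ℕ)) : List ℕ → ℕ → ℕ
  | [], s => s
  | g :: w, s => app n gens w (img (gens.getD g []) n s)

/-- The generators preserve the labels. -/
def gcheck (n k : ℕ) (l : ℕ → ℕ) (gens : List (List ℕ)) : Bool :=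
  gens.all (fun c => valid n c && (List.range (2 ^ n)).all
    (fun s => (!(pc n s == k)) || l (img c n s) == l s))

/-- The words map the masks to the representatives. -/
def wcheck (n k m : ℕ) (l : ℕ → ℕ) (gens : List (List ℕ)) (tab : List (List ℕ))
    (reps : List ℕ) : Bool :=
  tab.all (fun w => w.all (fun g => decide (g < gens.length))) &&
  (List.range (2 ^ n)).all (fun s => decide (m < pc n s) ||
    app n gens (tab.getD s []) s == reps.getD (3 * pc n s + if pc n s = k then l s else 0) 0)

theorem app_lt {n : ℕ} {gens : List (List ℕ)} (hg : ∀ c ∈ gens, valid n c = true) :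
    ∀ (w : List ℕ) (s : ℕ), (∀ g ∈ w, g < gens.length) → s < 2 ^ n →
      app n gens w s < 2 ^ n := by
  intro w
  induction w with
  | nil => intro s _ hs; exact hs
  | cons g w ih =>
    intro s hw _
    rw [app]
    apply ih _ (fun x hx => hw x (by simp [hx]))
    have h1 : gens.getD g [] ∈ gens := by
      rw [List.getD_eq_getElem _ _ (hw g (by simp))]
      exact List.getElem_mem _
    exact img_lt (hg _ h1) s

theorem rel_app {n k : ℕ} {l : ℕ → ℕ} {gens : List (List ℕ)}
    (hg : gcheck n k l gens = true) :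
    ∀ (w : List ℕ) (s : ℕ), (∀ g ∈ w, g < gens.length) → s < 2 ^ n →
      Rel k l (S n s) (S n (app n gens w s)) := by
  simp only [gcheck, List.all_eq_true, Bool.and_eq_true, List.mem_range, Bool.or_eq_true,
    Bool.not_eq_true', beq_eq_false_iff_ne, beq_iff_eq] at hg
  intro w
  induction w with
  | nil => intro s _ hs; exact Rel.refl k l _
  | cons g w ih =>
    intro s hw hs
    rw [app]
    have h1 : gens.getD g [] ∈ gens := by
      rw [List.getD_eq_getElem _ _ (hw g (by simp))]
      exact List.getElem_mem _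
    obtain ⟨hv, hp⟩ := hg _ h1
    refine Rel.trans ?_ (ih _ (fun x hx => hw x (by simp [hx])) (img_lt hv s))
    obtain ⟨σ, hσ⟩ := exists_perm hv
    refine ⟨σ, ?_, hσ s⟩
    intro A hA
    rw [code_map hv hσ]
    rcases hp (code A) (code_lt A) with h2 | h2
    · exfalso
      apply h2
      rw [← card_S, S_code, hA]
    · exact h2

theorem trans_of_check {n k m : ℕ} {l : ℕ → ℕ} {gens tab : List (List ℕ)} {reps : List ℕ}
    (hg : gcheck n k l gens = true) (hw : wcheck n k m l gens tab reps = true)
    (A B : Finset (Fin n)) (hc : A.card = B.card) (hm : A.card ≤ m)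
    (hl : A.card = k → l (code A) = l (code B)) : Rel k l A B := by
  simp only [wcheck, List.all_eq_true, Bool.and_eq_true, List.mem_range, Bool.or_eq_true,
    decide_eq_true_eq, beq_iff_eq] at hw
  obtain ⟨h1, h2⟩ := hw
  have hword : ∀ s, ∀ g ∈ tab.getD s [], g < gens.length := by
    intro s g hgs
    by_cases hs : s < tab.length
    · rw [List.getD_eq_getElem _ _ hs] at hgs
      exact h1 _ (List.getElem_mem hs) g hgs
    · rw [List.getD_eq_default _ _ (by omega)] at hgs
      simp at hgs
  have key : ∀ D : Finset (Fin n), D.card ≤ m → Rel k l D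
      (S n (reps.getD (3 * D.card + if D.card = k then l (code D) else 0) 0)) := by
    intro D hD
    have h3 := rel_app hg (tab.getD (code D) []) (code D) (hword _) (code_lt D)
    rw [S_code] at h3
    have h4 : pc n (code D) = D.card := by rw [← card_S, S_code]
    rcases h2 (code D) (code_lt D) with h5 | h5
    · omega
    · rw [h5, h4] at h3
      exact h3
  have hA := key A hm
  have hB := key B (by omega)
  rw [← hc] at hB
  by_cases hk : A.card = k
  · rw [if_pos hk] at hA hB
    rw [← hl hk] at hB
    exact hA.trans hB.symm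
  · rw [if_neg hk] at hA hB
    exact hA.trans hB.symm

end Pool.Agent.HSF98.X80
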