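import Pool.Agent.HSF98.X80.Srch

set_option autoImplicit false

/-! Bit masks and permutations. -/

namespace Pool.Agent.HSF98.X80

open Finset

/-- The bit mask of a subset of `Fin n`. -/
noncomputable def code {n : ℕ} (A : Finset (Fin n)) : ℕ := (S_surj A).choose

theorem code_lt {n : ℕ} (A : Finset (Fin n)) : code A < 2 ^ n := (S_surj A).choose_spec.1

theorem S_code {n : ℕ} (A : Finset (Fin n)) : S n (code A) = A := (S_surj A).choose_spec.2

theorem code_S {n s : ℕ} (hs : s < 2 ^ n) : code (S n s) = s :=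
  S_inj (code_lt _) hs (S_code _)

/-- Image of a mask under the map `i ↦ c[i]`. -/
def img (c : List ℕ) : ℕ → ℕ → ℕ
  | 0, _ => 0
  | i + 1, s => (if s.testBit i = true then 2 ^ (c.getD i 0) else 0) ||| img c i s

theorem testBit_img (c : List ℕ) (s j : ℕ) : ∀ n, (img c n s).testBit j = true ↔
    ∃ i < n, s.testBit i = true ∧ c.getD i 0 = j := by
  intro n
  induction n with
  | zero => simp [img]
  | succ n ih =>
    rw [img, Nat.testBit_or, Bool.or_eq_true, ih]
    constructor
    · rintro (h | ⟨i, hi, h1, h2⟩)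
      · by_cases hs : s.testBit n = true
        · rw [if_pos hs, Nat.testBit_two_pow] at h
          exact ⟨n, by omega, hs, of_decide_eq_true h⟩
        · rw [if_neg hs] at h
          simp at h
      · exact ⟨i, by omega, h1, h2⟩
    · rintro ⟨i, hi, h1, h2⟩
      by_cases hin : i = n
      · left
        subst hin
        rw [if_pos h1, Nat.testBit_two_pow]
        exact decide_eq_true h2
      · right
        exact ⟨i, by omega, h1, h2⟩

/-- `c` lists a permutation of `0, ..., n-1`. -/
def valid (n : ℕ) (c : List ℕ) : Bool :=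
  (List.range n).all (fun i => decide (c.getD i 0 < n)) &&
    (List.range n).all (fun j => (List.range n).any (fun i => c.getD i 0 == j))

theorem exists_perm {n : ℕ} {c : List ℕ} (h : valid n c = true) :
    ∃ σ : Equiv.Perm (Fin n), ∀ s, (S n s).map σ.toEmbedding = S n (img c n s) := by
  simp only [valid, Bool.and_eq_true, List.all_eq_true, List.mem_range, decide_eq_true_eq,
    List.any_eq_true, beq_iff_eq] at h
  obtain ⟨h1, h2⟩ := h
  have hs : Function.Surjective (fun i : Fin n => (⟨c.getD i.val 0, h1 i.val i.2⟩ : Fin n)) := by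
    intro j
    obtain ⟨i, hi, hj⟩ := h2 j.val j.2
    exact ⟨⟨i, hi⟩, Fin.ext hj⟩
  have hb := (Finite.injective_iff_surjective.mpr hs)
  refine ⟨Equiv.ofBijective _ ⟨hb, hs⟩, fun s => ?_⟩
  ext j
  simp only [mem_map_equiv]
  rw [mem_S, mem_S, testBit_img]
  constructor
  · intro h3
    refine ⟨((Equiv.ofBijective _ ⟨hb, hs⟩).symm j).val, Fin.is_lt _, h3, ?_⟩
    have h4 := (Equiv.ofBijective _ ⟨hb, hs⟩).apply_symm_apply j
    exact congrArg Fin.val h4
  · rintro ⟨i, hi, h3, h4⟩
    have h5 : (Equiv.ofBijective _ ⟨hb, hs⟩).symm j = ⟨i, hi⟩ := by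
      rw [Equiv.symm_apply_eq]
      exact Fin.ext h4.symm
    rw [h5]
    exact h3

theorem img_lt {n : ℕ} {c : List ℕ} (h : valid n c = true) (s : ℕ) : img c n s < 2 ^ n := by
  simp only [valid, Bool.and_eq_true, List.all_eq_true, List.mem_range, decide_eq_true_eq,
    List.any_eq_true, beq_iff_eq] at h
  apply Nat.lt_pow_two_of_testBit
  intro j hj
  by_contra hc
  have h2 : (img c n s).testBit j = true := by simpa using hc
  rw [testBit_img] at h2
  obtain ⟨i, hi, _, h3⟩ := h2
  have := h.1 i hi
  omega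

theorem code_map {n : ℕ} {c : List ℕ} (h : valid n c = true) {σ : Equiv.Perm (Fin n)}
    (hσ : ∀ s, (S n s).map σ.toEmbedding = S n (img c n s)) (A : Finset (Fin n)) :
    code (A.map σ.toEmbedding) = img c n (code A) := by
  have h1 := hσ (code A)
  rw [S_code] at h1
  rw [h1, code_S (img_lt h _)]

end Pool.Agent.HSF98.X80
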