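import Pool.Agent.HSF98.X80.SchOf
import Pool.Agent.HSF98.X80.Dat78

set_option autoImplicit false

namespace Pool.Agent.HSF98.X80

open Finset

theorem T7all : ∀ τ < 4, ∀ A B : Finset (Fin 7), A.card = B.card → A.card ≤ 3 →
    (A.card = 3 → std τ (code A) = std τ (code B)) → Rel 3 (std τ) A B := by
  intro τ hτ A B h1 h2 h3
  have hτ' : τ = 0 ∨ τ = 1 ∨ τ = 2 ∨ τ = 3 := by omega
  rcases hτ' with rfl | rfl | rfl | rfl
  · exact trans_of_check gc7_0 wc7_0 A B h1 h2 h3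
  · exact trans_of_check gc7_1 wc7_1 A B h1 h2 h3
  · exact trans_of_check gc7_2 wc7_2 A B h1 h2 h3
  · exact trans_of_check gc7_3 wc7_3 A B h1 h2 h3

theorem T8all : ∀ τ < 4, ∀ A B : Finset (Fin 8), A.card = B.card → A.card ≤ 4 →
    (A.card = 4 → std8 τ (code A) = std8 τ (code B)) → Rel 4 (std8 τ) A B := by
  intro τ hτ A B h1 h2 h3
  have hτ' : τ = 0 ∨ τ = 1 ∨ τ = 2 ∨ τ = 3 := by omega
  rcases hτ' with rfl | rfl | rfl | rfl
  · exact trans_of_check gc8_0 wc8_0 A B h1 h2 h3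
  · exact trans_of_check gc8_1 wc8_1 A B h1 h2 h3
  · exact trans_of_check gc8_2 wc8_2 A B h1 h2 h3
  · exact trans_of_check gc8_3 wc8_3 A B h1 h2 h3

theorem pair_eq {n r : ℕ} {κ : Finset (Fin n) → Fin r} (h : GC κ)
    (hu : ∀ J J' : Finset (Fin n), J.card = J'.card → J.card < 3 → κ J = κ J')
    (p : Fin r) (x y x' y' : Fin n) (hxy : x ≠ y) (hxy' : x' ≠ y') :
    ((univ.filter (fun A : Finset (Fin n) => A.card = 3 ∧ κ A = p)).filter
      (fun A => x ∈ A ∧ y ∈ A)).card =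
    ((univ.filter (fun A : Finset (Fin n) => A.card = 3 ∧ κ A = p)).filter
      (fun A => x' ∈ A ∧ y' ∈ A)).card := by
  classical
  by_cases hp : ∃ A0 : Finset (Fin n), A0.card = 3 ∧ κ A0 = p
  · obtain ⟨A0, hA0, hp⟩ := hp
    have h1 : ∀ u v : Fin n, (univ.filter (fun A : Finset (Fin n) => A.card = 3 ∧ κ A = p)).filter
        (fun A => u ∈ A ∧ v ∈ A) = univ.filter (fun A => κ A = p ∧ {u, v} ⊆ A) := by
      intro u v
      ext A
      simp only [mem_filter, mem_univ, true_and, insert_subset_iff, singleton_subset_iff]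
      constructor
      · rintro ⟨⟨_, h3⟩, h4⟩
        exact ⟨h3, h4⟩
      · rintro ⟨h3, h4⟩
        refine ⟨⟨?_, h3⟩, h4⟩
        rw [← hA0]
        exact h.lev _ _ (h3.trans hp.symm)
    rw [h1, h1]
    exact h.sup _ _ (hu _ _ (by rw [card_pair hxy, card_pair hxy'])
      (by rw [card_pair hxy]; norm_num)) p
  · have h1 : (univ.filter (fun A : Finset (Fin n) => A.card = 3 ∧ κ A = p)) = ∅ := by
      rw [filter_eq_empty_iff]
      intro A _ hA
      exact hp ⟨A, hA⟩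
    rw [h1]
    rfl

theorem S73 {r : ℕ} {κ : Finset (Fin 7) → Fin r} (h : GC κ)
    (hu : ∀ J J' : Finset (Fin 7), J.card = J'.card → J.card < 3 → κ J = κ J') :
    ∀ J J', κ J = κ J' → ∃ s : Equiv.Perm (Fin 7), (∀ A, κ (A.map s.toEmbedding) = κ A) ∧
      J.map s.toEmbedding = J' := by
  obtain ⟨τ, σ, hτ, hσ⟩ := cls7 κ (fun p x y x' y' hxy hxy' => pair_eq h hu p x y x' y' hxy hxy')
  exact sch_of (k := 3) h (by norm_num) hu (std τ) σ hσ (T7all τ hτ)

end Pool.Agent.HSF98.X80
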