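import Pool.Agent.HSF98.X80.S73

set_option autoImplicit false

namespace Pool.Agent.HSF98.X80

open Finset

/-- If the levels below 4 are not split then quadruples of eight points and their complements
have the same colour. -/
theorem selfc {r : ℕ} {κ : Finset (Fin 8) → Fin r} (h : GC κ)
    (hu : ∀ J J' : Finset (Fin 8), J.card = J'.card → J.card < 4 → κ J = κ J')
    (J0 : Finset (Fin 8)) (hJ0 : J0.card = 4) : κ J0ᶜ = κ J0 := by
  classical
  set q := κ J0 with hq
  set f : ℕ → ℤ := fun j => if j < 4 then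
    ((univ.filter (fun A : Finset (Fin 8) => κ A = q ∧ S 8 (2 ^ j - 1) ⊆ A)).card : ℤ) else 0
    with hf
  have hrep : ∀ j < 4, (S 8 (2 ^ j - 1)).card = j := by decide +kernel
  have hN : ∀ K : Finset (Fin 8), K.card < 4 →
      ((univ.filter (fun A : Finset (Fin 8) => κ A = q ∧ K ⊆ A)).card : ℤ) = f K.card := by
    intro K hK
    rw [hf]
    simp only
    rw [if_pos hK]
    have h1 := h.sup K (S 8 (2 ^ K.card - 1))
      (hu _ _ (by rw [hrep _ hK]) hK) q
    exact_mod_cast h1
  have key : ∀ J : Finset (Fin 8), J.card = 4 →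
      ((univ.filter (fun A : Finset (Fin 8) => κ A = q ∧ J ∩ A = ∅)).card : ℤ) -
      ((univ.filter (fun A : Finset (Fin 8) => κ A = q ∧ J ⊆ A)).card : ℤ) =
      ∑ m ∈ range 5, Nat.choose 4 m • ((-1 : ℤ) ^ m * f m) := by
    intro J hJ
    have h2 := Finset.sum_powerset_apply_card (fun m => (-1 : ℤ) ^ m * f m) (x := J)
    rw [hJ] at h2
    rw [compl_disj, ← h2]
    have h3 : J ∈ J.powerset := mem_powerset_self J
    rw [← Finset.sum_erase_add _ _ h3, ← Finset.sum_erase_add (J.powerset)
      (fun m => (-1 : ℤ) ^ m.card * f m.card) h3]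
    have h4 : ∑ K ∈ J.powerset.erase J, (-1 : ℤ) ^ K.card *
        ((univ.filter (fun A : Finset (Fin 8) => κ A = q ∧ K ⊆ A)).card : ℤ) =
        ∑ K ∈ J.powerset.erase J, (-1 : ℤ) ^ K.card * f K.card := by
      apply Finset.sum_congr rfl
      intro K hK
      rw [mem_erase, mem_powerset] at hK
      have h5 : K.card < 4 := by
        rw [← hJ]
        exact card_lt_card (hK.2.ssubset_of_ne hK.1)
      rw [hN K h5]
    rw [h4, hJ]
    have h6 : f 4 = 0 := by rw [hf]; simp
    rw [h6]
    ring
  have hlev : ∀ A : Finset (Fin 8), κ A = q → A.card = 4 := fun A hA => by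
    rw [← hJ0]; exact h.lev _ _ hA
  have hD : ∀ J : Finset (Fin 8), J.card = 4 →
      (univ.filter (fun A : Finset (Fin 8) => κ A = q ∧ J ∩ A = ∅)).card =
        if κ Jᶜ = q then 1 else 0 := by
    intro J hJ
    have hcase : ∀ A : Finset (Fin 8), (κ A = q ∧ J ∩ A = ∅) ↔ (κ Jᶜ = q ∧ A = Jᶜ) := by
      intro A
      constructor
      · rintro ⟨h1, h2⟩
        have h3 : A = Jᶜ := by
          apply eq_of_subset_of_card_le
          · intro x hx
            rw [mem_compl]
            intro hx'
            have : x ∈ J ∩ A := mem_inter.2 ⟨hx', hx⟩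
            rw [h2] at this
            exact absurd this (notMem_empty x)
          · rw [hlev A h1, card_compl, hJ]
            simp
        exact ⟨h3 ▸ h1, h3⟩
      · rintro ⟨h1, rfl⟩
        exact ⟨h1, by simp⟩
    by_cases h1 : κ Jᶜ = q
    · rw [if_pos h1, card_eq_one]
      refine ⟨Jᶜ, ?_⟩
      ext A
      rw [mem_filter, mem_singleton, hcase]
      simp [h1]
    · rw [if_neg h1, card_eq_zero, filter_eq_empty_iff]
      intro A _ hA
      exact h1 ((hcase A).mp hA).1
  have hE : ∀ J : Finset (Fin 8), J.card = 4 →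
      (univ.filter (fun A : Finset (Fin 8) => κ A = q ∧ J ⊆ A)).card =
        if κ J = q then 1 else 0 := by
    intro J hJ
    have hcase : ∀ A : Finset (Fin 8), (κ A = q ∧ J ⊆ A) ↔ (κ J = q ∧ A = J) := by
      intro A
      constructor
      · rintro ⟨h1, h2⟩
        have h3 : J = A := eq_of_subset_of_card_le h2 (by rw [hlev A h1, hJ])
        exact ⟨h3 ▸ h1, h3.symm⟩
      · rintro ⟨h1, rfl⟩
        exact ⟨h1, Subset.refl _⟩
    by_cases h1 : κ J = q
    · rw [if_pos h1, card_eq_one]
      refine ⟨J, ?_⟩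
      ext A
      rw [mem_filter, mem_singleton, hcase]
      simp [h1]
    · rw [if_neg h1, card_eq_zero, filter_eq_empty_iff]
      intro A _ hA
      exact h1 ((hcase A).mp hA).1
  have hc0 : (J0ᶜ).card = 4 := by rw [card_compl, hJ0]; simp
  have e1 := key J0 hJ0
  have e2 := key J0ᶜ hc0
  rw [hD J0 hJ0, hE J0 hJ0] at e1
  rw [hD J0ᶜ hc0, hE J0ᶜ hc0, compl_compl] at e2
  rw [← e2] at e1
  by_contra hne
  rw [if_neg hne, if_pos hq.symm] at e1
  norm_num at e1

/-- Add the last point. -/
def ins (A : Finset (Fin 7)) : Finset (Fin 8) := insert (Fin.last 7) (A.map Fin.castSuccEmb)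

theorem last_notMem (A : Finset (Fin 7)) : Fin.last 7 ∉ A.map Fin.castSuccEmb := by
  rw [mem_map]
  rintro ⟨x, _, hx⟩
  exact (Fin.castSucc_lt_last x).ne hx

theorem card_ins (A : Finset (Fin 7)) : (ins A).card = A.card + 1 := by
  rw [ins, card_insert_of_notMem (last_notMem A), card_map]

theorem cast_mem_ins {A : Finset (Fin 7)} {x : Fin 7} : x.castSucc ∈ ins A ↔ x ∈ A := by
  rw [ins, mem_insert, mem_map]
  constructor
  · rintro (h | ⟨y, hy, h⟩)
    · exact absurd h (Fin.castSucc_lt_last x).ne
    · have h2 : y = x := Fin.castSucc_injective 7 h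
      exact h2 ▸ hy
  · intro h
    exact Or.inr ⟨x, h, rfl⟩

theorem last_mem_ins (A : Finset (Fin 7)) : Fin.last 7 ∈ ins A := mem_insert_self _ _

theorem ins_inj {A B : Finset (Fin 7)} (h : ins A = ins B) : A = B := by
  ext x
  rw [← cast_mem_ins, h, cast_mem_ins]

theorem insS : ∀ a < 128, S 8 (a + 128) = ins (S 7 a) := by decide +kernel

theorem cinsS : ∀ a < 128, S 8 (127 - a) = (ins (S 7 a))ᶜ := by decide +kernel

/-- Extend a permutation by the last point. -/
def ext8 (σ : Equiv.Perm (Fin 7)) : Equiv.Perm (Fin 8) :=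
  (finSuccEquivLast.trans (Equiv.optionCongr σ)).trans finSuccEquivLast.symm

theorem ext8_cast (σ : Equiv.Perm (Fin 7)) (x : Fin 7) :
    ext8 σ x.castSucc = (σ x).castSucc := by
  simp [ext8]

theorem ext8_last (σ : Equiv.Perm (Fin 7)) : ext8 σ (Fin.last 7) = Fin.last 7 := by
  simp only [ext8, Equiv.trans_apply, finSuccEquivLast_last, Equiv.optionCongr_apply,
    Option.map_none, finSuccEquivLast_symm_none]

theorem map_ins (σ : Equiv.Perm (Fin 7)) (A : Finset (Fin 7)) :
    (ins A).map (ext8 σ).toEmbedding = ins (A.map σ.toEmbedding) := by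
  have e1 : (ext8 σ).toEmbedding (Fin.last 7) = Fin.last 7 := ext8_last σ
  rw [ins, ins, map_insert, map_map, map_map, e1]
  have e2 : A.map (Fin.castSuccEmb.trans (ext8 σ).toEmbedding) =
      A.map (σ.toEmbedding.trans Fin.castSuccEmb) := by
    ext y
    simp only [mem_map]
    constructor
    · rintro ⟨x, hx, rfl⟩
      exact ⟨x, hx, (ext8_cast σ x).symm⟩
    · rintro ⟨x, hx, rfl⟩
      exact ⟨x, hx, ext8_cast σ x⟩
  rw [e2]

theorem pair8 {r : ℕ} {κ : Finset (Fin 8) → Fin r} (h : GC κ)
    (hu : ∀ J J' : Finset (Fin 8), J.card = J'.card → J.card < 4 → κ J = κ J')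
    (p : Fin r) (x y x' y' : Fin 7) (hxy : x ≠ y) (hxy' : x' ≠ y') :
    ((cl (fun A => κ (ins A)) p).filter (fun A => x ∈ A ∧ y ∈ A)).card =
    ((cl (fun A => κ (ins A)) p).filter (fun A => x' ∈ A ∧ y' ∈ A)).card := by
  classical
  by_cases hp : ∃ A0 : Finset (Fin 7), A0.card = 3 ∧ κ (ins A0) = p
  · obtain ⟨A0, hA0, hp⟩ := hp
    have h1 : ∀ u v : Fin 7, ((cl (fun A => κ (ins A)) p).filter
        (fun A => u ∈ A ∧ v ∈ A)).card =
        (univ.filter (fun B => κ B = p ∧ {Fin.last 7, u.castSucc, v.castSucc} ⊆ B)).card := by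
      intro u v
      refine Finset.card_bij (fun A _ => ins A) ?_ ?_ ?_
      · intro A hA
        rw [mem_filter, mem_cl] at hA
        rw [mem_filter]
        refine ⟨mem_univ _, hA.1.2, ?_⟩
        rw [insert_subset_iff, insert_subset_iff, singleton_subset_iff]
        exact ⟨last_mem_ins A, cast_mem_ins.mpr hA.2.1, cast_mem_ins.mpr hA.2.2⟩
      · intro A _ B _ hAB
        exact ins_inj hAB
      · intro B hB
        rw [mem_filter, insert_subset_iff, insert_subset_iff, singleton_subset_iff] at hB
        obtain ⟨-, hBp, hl, hu', hv'⟩ := hB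
        have hBi : ins (univ.filter (fun z : Fin 7 => z.castSucc ∈ B)) = B := by
          ext z
          refine Fin.lastCases ?_ (fun w => ?_) z
          · exact ⟨fun _ => hl, fun _ => last_mem_ins _⟩
          · rw [cast_mem_ins]
            simp
        refine ⟨univ.filter (fun z : Fin 7 => z.castSucc ∈ B), ?_, hBi⟩
        rw [mem_filter, mem_cl]
        refine ⟨⟨?_, ?_⟩, by simpa using hu', by simpa using hv'⟩
        · have h2 := h.lev B (ins A0) (hBp.trans hp.symm)
          rw [← hBi, card_ins, card_ins] at h2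
          omega
        · simp only [hBi, hBp]
    rw [h1, h1]
    have hc3 : ∀ u v : Fin 7, u ≠ v →
        ({Fin.last 7, u.castSucc, v.castSucc} : Finset (Fin 8)).card = 3 := by
      intro u v huv
      rw [card_eq_three]
      exact ⟨_, _, _, (Fin.castSucc_lt_last u).ne', (Fin.castSucc_lt_last v).ne',
        fun hh => huv (Fin.castSucc_injective 7 hh), rfl⟩
    exact h.sup _ _ (hu _ _ (by rw [hc3 _ _ hxy, hc3 _ _ hxy'])
      (by rw [hc3 _ _ hxy]; norm_num)) p
  · have h1 : cl (fun A => κ (ins A)) p = ∅ := by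
      rw [cl, filter_eq_empty_iff]
      intro A _ hA
      exact hp ⟨A, hA⟩
    rw [h1]
    rfl

theorem S84 {r : ℕ} {κ : Finset (Fin 8) → Fin r} (h : GC κ)
    (hu : ∀ J J' : Finset (Fin 8), J.card = J'.card → J.card < 4 → κ J = κ J') :
    ∀ J J', κ J = κ J' → ∃ s : Equiv.Perm (Fin 8), (∀ A, κ (A.map s.toEmbedding) = κ A) ∧
      J.map s.toEmbedding = J' := by
  classical
  obtain ⟨τ, σ, hτ, hσ⟩ := cls7 (fun A => κ (ins A))
    (fun p x y x' y' hxy hxy' => pair8 h hu p x y x' y' hxy hxy')
  have red : ∀ B : Finset (Fin 8), B.card = 4 → ∃ A : Finset (Fin 7), A.card = 3 ∧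
      κ (B.map (ext8 σ).toEmbedding) = κ (ins (A.map σ.toEmbedding)) ∧
      std8 τ (code B) = std τ (code A) := by
    intro B hB
    have hb : code B < 256 := code_lt B
    have hSB : S 8 (code B) = B := S_code B
    rcases Nat.lt_or_ge (code B) 128 with h1 | h1
    · have ha : 127 - code B < 128 := by omega
      have h2 := cinsS (127 - code B) ha
      rw [show 127 - (127 - code B) = code B by omega, hSB] at h2
      have h3 : (ins (S 7 (127 - code B))).card = 4 := by
        have h4 : B.card = 8 - (ins (S 7 (127 - code B))).card := by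
          conv_lhs => rw [h2]
          rw [card_compl]; simp
        have h5 := card_le_univ (ins (S 7 (127 - code B)))
        simp at h5
        omega
      refine ⟨S 7 (127 - code B), ?_, ?_, ?_⟩
      · rw [card_ins] at h3; omega
      · conv_lhs => rw [h2]
        rw [map_compl_perm, map_ins, selfc h hu]
        rw [card_ins, card_map]
        rw [card_ins] at h3
        exact h3
      · rw [code_S ha, std8]
        have h6 : (code B).testBit 7 = false := Nat.testBit_lt_two_pow (by omega)
        rw [h6]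
        simp
    · have ha : code B - 128 < 128 := by omega
      have h2 := insS (code B - 128) ha
      rw [show code B - 128 + 128 = code B by omega, hSB] at h2
      refine ⟨S 7 (code B - 128), ?_, ?_, ?_⟩
      · have h4 : B.card = (S 7 (code B - 128)).card + 1 := by
          conv_lhs => rw [h2]
          rw [card_ins]
        omega
      · conv_lhs => rw [h2]
        rw [map_ins]
      · rw [code_S ha, std8]
        have h6 : (code B).testBit 7 = true := by
          have h7 : code B = 2 ^ 7 + (code B - 128) := by omega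
          rw [h7, Nat.testBit_two_pow_add_eq, Nat.testBit_lt_two_pow (by omega)]
          rfl
        rw [h6]
        simp
  refine sch_of (k := 4) h (by norm_num) hu (std8 τ) (ext8 σ) ?_ (T8all τ hτ)
  intro B B' hB hB'
  obtain ⟨A, hA, h1, h2⟩ := red B hB
  obtain ⟨A', hA', h1', h2'⟩ := red B' hB'
  rw [h1, h1', h2, h2']
  exact hσ A A' hA hA'

end Pool.Agent.HSF98.X80
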