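import Pool.Agent.HSF98.X80.Grp
import Pool.Agent.HSF98.Compl
import Pool.Agent.HSF98.Defs3

set_option autoImplicit false

namespace Pool.Agent.HSF98.X80

open Finset

theorem map_compl_perm {n : ℕ} (ρ : Equiv.Perm (Fin n)) (A : Finset (Fin n)) :
    (Aᶜ).map ρ.toEmbedding = (A.map ρ.toEmbedding)ᶜ := by
  ext x
  rw [mem_map_equiv, mem_compl, mem_compl, mem_map_equiv]

/-- The colouring is schurian if level `k` is isomorphic to a labelling with enough
automorphisms and the lower levels are not split. -/
theorem sch_of {n k r : ℕ} {κ : Finset (Fin n) → Fin r} (h : GC κ) (hn : n ≤ 2 * k + 1)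
    (hu : ∀ J J' : Finset (Fin n), J.card = J'.card → J.card < k → κ J = κ J')
    (l : ℕ → ℕ) (σ : Equiv.Perm (Fin n))
    (hσ : ∀ A A' : Finset (Fin n), A.card = k → A'.card = k →
      (κ (A.map σ.toEmbedding) = κ (A'.map σ.toEmbedding) ↔ l (code A) = l (code A')))
    (hT : ∀ A B : Finset (Fin n), A.card = B.card → A.card ≤ k →
      (A.card = k → l (code A) = l (code B)) → Rel k l A B) :
    ∀ J J', κ J = κ J' → ∃ s : Equiv.Perm (Fin n), (∀ A, κ (A.map s.toEmbedding) = κ A) ∧
      J.map s.toEmbedding = J' := by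
  have hback : ∀ A : Finset (Fin n),
      (A.map (σ⁻¹ : Equiv.Perm (Fin n)).toEmbedding).map σ.toEmbedding = A :=
    fun A => map_inv_map σ A
  have key : ∀ J J' : Finset (Fin n), κ J = κ J' → J.card ≤ k →
      ∃ s : Equiv.Perm (Fin n), (∀ A, κ (A.map s.toEmbedding) = κ A) ∧
        J.map s.toEmbedding = J' := by
    intro J J' hJ hk
    have hc := h.lev _ _ hJ
    set K := J.map (σ⁻¹ : Equiv.Perm (Fin n)).toEmbedding with hK
    set K' := J'.map (σ⁻¹ : Equiv.Perm (Fin n)).toEmbedding with hK'
    have hKc : K.card = J.card := by rw [hK, card_map]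
    have hKc' : K'.card = J'.card := by rw [hK', card_map]
    obtain ⟨g, hg, hg2⟩ := hT K K' (by omega) (by omega) (by
      intro h1
      apply (hσ K K' h1 (by omega)).mp
      rw [hback, hback]
      exact hJ)
    have hm : ∀ A : Finset (Fin n), A.map ((σ * g * σ⁻¹ : Equiv.Perm (Fin n))).toEmbedding =
        ((A.map (σ⁻¹ : Equiv.Perm (Fin n)).toEmbedding).map g.toEmbedding).map
          σ.toEmbedding := by
      intro A
      rw [map_map, map_map]
      rfl
    have hlow : ∀ A : Finset (Fin n), A.card ≤ k →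
        κ (A.map ((σ * g * σ⁻¹ : Equiv.Perm (Fin n))).toEmbedding) = κ A := by
      intro A hA
      rcases Nat.lt_or_ge A.card k with h1 | h1
      · apply hu
        · rw [card_map]
        · rw [card_map]; exact h1
      · have h2 : A.card = k := by omega
        rw [hm]
        have h3 : κ (((A.map (σ⁻¹ : Equiv.Perm (Fin n)).toEmbedding).map
            g.toEmbedding).map σ.toEmbedding) =
            κ ((A.map (σ⁻¹ : Equiv.Perm (Fin n)).toEmbedding).map σ.toEmbedding) := by
          rw [hσ _ _ (by rw [card_map, card_map]; exact h2) (by rw [card_map]; exact h2)]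
          exact hg _ (by rw [card_map]; exact h2)
        rw [h3, hback]
    refine ⟨σ * g * σ⁻¹, ?_, ?_⟩
    · intro A
      rcases Nat.lt_or_ge k A.card with h1 | h1
      · have h2 : (Aᶜ).card ≤ k := by
          rw [card_compl, Fintype.card_fin]; omega
        have h3 := compl_eq h _ _ (hlow Aᶜ h2)
        rw [map_compl_perm, compl_compl, compl_compl] at h3
        exact h3
      · exact hlow A h1
    · rw [hm, ← hK, hg2, hK', hback]
  intro J J' hJ
  rcases Nat.lt_or_ge k J.card with h1 | h1
  · have h2 : (Jᶜ).card ≤ k := by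
      rw [card_compl, Fintype.card_fin]; omega
    obtain ⟨s, hs, hs2⟩ := key Jᶜ J'ᶜ (compl_eq h _ _ hJ) h2
    refine ⟨s, hs, ?_⟩
    rw [map_compl_perm] at hs2
    exact compl_injective hs2
  · exact key J J' hJ h1

end Pool.Agent.HSF98.X80
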