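import Mathlib

set_option autoImplicit false

/-! Kernel search for families of subsets of `Fin n` with prescribed counts. -/

namespace Pool.Agent.HSF98.X80

open Finset

/-- The subset of `Fin n` with bit mask `s`. -/
def S (n s : ℕ) : Finset (Fin n) := univ.filter (fun i => s.testBit i.val = true)

theorem mem_S {n s : ℕ} {i : Fin n} : i ∈ S n s ↔ s.testBit i.val = true := by simp [S]

theorem S_inj {n s t : ℕ} (hs : s < 2 ^ n) (ht : t < 2 ^ n) (h : S n s = S n t) : s = t := by
  apply Nat.eq_of_testBit_eq
  intro i
  by_cases hi : i < n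
  · have h1 : (⟨i, hi⟩ : Fin n) ∈ S n s ↔ (⟨i, hi⟩ : Fin n) ∈ S n t := by rw [h]
    rw [mem_S, mem_S] at h1
    exact Bool.eq_iff_iff.mpr h1
  · have h2 : 2 ^ n ≤ 2 ^ i := Nat.pow_le_pow_right (by norm_num) (by omega)
    rw [Nat.testBit_lt_two_pow (by omega), Nat.testBit_lt_two_pow (by omega)]

theorem S_surj {n : ℕ} (A : Finset (Fin n)) : ∃ s, s < 2 ^ n ∧ S n s = A := by
  have hinj : Function.Injective (fun s : Fin (2 ^ n) => S n s.val) := by
    intro s t h
    exact Fin.ext (S_inj s.2 t.2 h)
  have hbij : Function.Bijective (fun s : Fin (2 ^ n) => S n s.val) := by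
    rw [Fintype.bijective_iff_injective_and_card]
    exact ⟨hinj, by simp⟩
  obtain ⟨s, hs⟩ := hbij.2 A
  exact ⟨s.val, s.2, hs⟩

/-- Search: a schedule lists the masks in order, with the lists whose count is checked
after each mask. -/
def dfs (lam : ℕ) : List (ℕ × List (List ℕ)) → ℕ → List ℕ
  | [], M => [M]
  | (t, cs) :: r, M =>
    (if cs.all (fun L => L.countP (fun s => (M ||| 2 ^ t).testBit s) == lam) = true then
      dfs lam r (M ||| 2 ^ t) else []) ++
    (if cs.all (fun L => L.countP (fun s => M.testBit s) == lam) = true then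
      dfs lam r M else [])

/-- The schedule is well formed: each check only involves decided masks. -/
def wf : List ℕ → List (ℕ × List (List ℕ)) → Bool
  | _, [] => true
  | dec, (t, cs) :: r =>
    (!(dec.contains t)) && (cs.all (fun L => L.all (fun s => (t :: dec).contains s)) &&
      wf (t :: dec) r)

theorem dfs_sound (lam : ℕ) (f : ℕ → Bool) : ∀ (r : List (ℕ × List (List ℕ))) (dec : List ℕ)
    (M : ℕ), wf dec r = true → (∀ s, M.testBit s = (decide (s ∈ dec) && f s)) →
    (∀ x ∈ r, ∀ L ∈ x.2, L.countP f = lam) →
    ∃ M' ∈ dfs lam r M, ∀ s, M'.testBit s = (decide (s ∈ dec ∨ s ∈ r.map Prod.fst) && f s) := by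
  intro r
  induction r with
  | nil =>
    intro dec M _ hM _
    exact ⟨M, by simp [dfs], fun s => by rw [hM s]; simp⟩
  | cons x r ih =>
    obtain ⟨t, cs⟩ := x
    intro dec M hwf hM hc
    simp only [wf, Bool.and_eq_true, List.all_eq_true, Bool.not_eq_true'] at hwf
    obtain ⟨h1, h2, h3⟩ := hwf
    have hcs : ∀ M' : ℕ, (∀ s, M'.testBit s = (decide (s ∈ t :: dec) && f s)) →
        cs.all (fun L => L.countP (fun s => M'.testBit s) == lam) = true := by
      intro M' hM'
      rw [List.all_eq_true]
      intro L hL
      have h4 := hc (t, cs) (by simp) L hL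
      rw [beq_iff_eq, ← h4]
      apply List.countP_congr
      intro s hs
      have h5 := h2 L hL s hs
      have h6 : s ∈ t :: dec := by simpa using h5
      rw [hM' s]
      simp [h6]
    have hr : ∀ y ∈ r, ∀ L ∈ y.2, L.countP f = lam := fun y hy => hc y (by simp [hy])
    by_cases hf : f t = true
    · have hM1 : ∀ s, (M ||| 2 ^ t).testBit s = (decide (s ∈ t :: dec) && f s) := by
        intro s
        rw [Nat.testBit_or, hM s, Nat.testBit_two_pow]
        by_cases hst : t = s
        · subst hst
          simp [hf]
        · have hst' : s ≠ t := fun h => hst h.symm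
          simp [hst, hst']
      obtain ⟨M', hM', hM''⟩ := ih (t :: dec) (M ||| 2 ^ t) h3 hM1 hr
      refine ⟨M', ?_, ?_⟩
      · rw [dfs, List.mem_append]
        left
        rw [if_pos (hcs _ hM1)]
        exact hM'
      · intro s
        rw [hM'' s]
        congr 1
        simp only [List.mem_cons, List.map_cons]
        apply decide_eq_decide.mpr
        tauto
    · have hM1 : ∀ s, M.testBit s = (decide (s ∈ t :: dec) && f s) := by
        intro s
        rw [hM s]
        by_cases hst : s = t
        · subst hst
          simp [hf]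
        · simp [hst]
      obtain ⟨M', hM', hM''⟩ := ih (t :: dec) M h3 hM1 hr
      refine ⟨M', ?_, ?_⟩
      · rw [dfs, List.mem_append]
        right
        rw [if_pos (hcs _ hM1)]
        exact hM'
      · intro s
        rw [hM'' s]
        congr 1
        simp only [List.mem_cons, List.map_cons]
        apply decide_eq_decide.mpr
        tauto

end Pool.Agent.HSF98.X80
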